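import Pool.Agent.Lib_MP_a95293_ah.Pair

/-!
# The number of pairs with given known primes, at all heights
-/

set_option autoImplicit false

namespace Pool.MP_a95293_nt.AH

open Finset Pool.MP_a95293_nt.RC Pool.MP_a95293_nt.TP

/-- the hypotheses on a pair: the exponents of `u` and `v` outside `P` are multiples of `k`, and the primes outside
`P` contribute at most `θ` -/
structure Hyp2 (k J : ℕ) (θ : ℝ) (P : Finset ℕ) (e : Bool) (w : ℕ × ℕ) : Prop where
  gd : Gd e w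
  l1 : J * Real.log 2 ≤ Real.log (Ht e w)
  l2 : 4 * k * Real.log k ≤ Real.log (Ht e w)
  l3 : 1 ≤ Real.log (Ht e w)
  l4 : 6000 * k ≤ Real.log (Ht e w)
  e1 : ∀ p, p ∉ P → k ∣ w.1.factorization p
  e2 : ∀ p, p ∉ P → k ∣ w.2.factorization p
  sm : Real.log (Vl e w) - θ * Real.log (Ht e w) ≤ ∑ p ∈ P, ((Vl e w).factorization p : ℝ) * Real.log p

/-- The common contributions of two pairs of the same class. -/
theorem class_fg {k J : ℕ} {θ : ℝ} (hJ : 1 ≤ J)
    {P : Finset ℕ} (hP : ∀ p ∈ P, p.Prime) {e : Bool} {w w' : ℕ × ℕ} (h : Hyp2 k J θ P e w) (h' : Hyp2 k J θ P e w')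
    (hd : ∀ p ∈ P, (p ∣ Vl e w ↔ p ∣ Vl e w'))
    (hpat : ∀ p ∈ P, ⌊((J * (P.card + 1) : ℕ) : ℝ) * th e w p⌋₊ = ⌊((J * (P.card + 1) : ℕ) : ℝ) * th e w' p⌋₊)
    (hgg : ⌊((J * (P.card + 1) : ℕ) : ℝ) * (gg e w / Real.log (Ht e w))⌋₊ =
      ⌊((J * (P.card + 1) : ℕ) : ℝ) * (gg e w' / Real.log (Ht e w'))⌋₊)
    (hcl : ∀ p ∈ P, p ∣ Vl e w → cls p (rt k w.1) (rt k w.2) = cls p (rt k w'.1) (rt k w'.2)) :
    ∃ (T : Finset ℕ) (f : ℕ → ℝ) (g : ℝ), (∀ p ∈ T, p.Prime ∧ p ∣ Vl e w ∧ p ∣ Vl e w') ∧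
      (∀ p ∈ T, cls p (rt k w.1) (rt k w.2) = cls p (rt k w'.1) (rt k w'.2)) ∧ (∀ p ∈ T, 0 ≤ f p) ∧ 0 ≤ g ∧
      (∀ p ∈ T, f p * Real.log (Ht e w) ≤ (Vl e w).factorization p * Real.log p) ∧
      (∀ p ∈ T, f p * Real.log (Ht e w') ≤ (Vl e w').factorization p * Real.log p) ∧
      g * Real.log (Ht e w) ≤ gg e w ∧ g * Real.log (Ht e w') ≤ gg e w' ∧ 1 - θ - 2 / J ≤ ∑ p ∈ T, f p + g := by
  classical
  set L := Real.log (Ht e w) with hL
  set L' := Real.log (Ht e w') with hL'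
  have hL1 : 1 ≤ L := h.l3
  have hL1' : 1 ≤ L' := h'.l3
  set M : ℝ := ((J * (P.card + 1) : ℕ) : ℝ) with hM
  have hJ0 : (1 : ℝ) ≤ J := by exact_mod_cast hJ
  have hMe : M = J * (P.card + 1) := by
    rw [hM]
    push_cast
    ring
  have hM0 : 0 < M := by
    rw [hMe]
    positivity
  set T := P.filter fun p => p ∣ Vl e w with hT
  set f : ℕ → ℝ := fun p => (⌊M * th e w p⌋₊ : ℝ) / M with hf
  set g : ℝ := (⌊M * (gg e w / L)⌋₊ : ℝ) / M with hg
  have hf0 : ∀ p, 0 ≤ f p := fun p => by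
    simp only [hf]
    positivity
  have hg0 : 0 ≤ g := by
    rw [hg]
    positivity
  have hfl : ∀ p, f p ≤ th e w p := by
    intro p
    simp only [hf]
    rw [div_le_iff₀ hM0, mul_comm (th e w p)]
    exact Nat.floor_le (mul_nonneg hM0.le (th_nonneg _ _ _))
  have hfl' : ∀ p ∈ P, f p ≤ th e w' p := by
    intro p hp
    simp only [hf]
    rw [hpat p hp, div_le_iff₀ hM0, mul_comm (th e w' p)]
    exact Nat.floor_le (mul_nonneg hM0.le (th_nonneg _ _ _))
  have hgl : g ≤ gg e w / L := by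
    rw [hg, div_le_iff₀ hM0, mul_comm (gg e w / L)]
    exact Nat.floor_le (mul_nonneg hM0.le (div_nonneg (gg_nonneg _ _) (by linarith)))
  have hgl' : g ≤ gg e w' / L' := by
    rw [hg, hgg, div_le_iff₀ hM0, mul_comm (gg e w' / L')]
    exact Nat.floor_le (mul_nonneg hM0.le (div_nonneg (gg_nonneg _ _) (by linarith)))
  have hth : ∀ (z : ℕ × ℕ) (p : ℕ), 1 ≤ Real.log (Ht e z) →
      th e z p * Real.log (Ht e z) = (Vl e z).factorization p * Real.log p := by
    intro z p hz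
    unfold th
    rw [div_mul_cancel₀]
    linarith
  refine ⟨T, f, g, ?_, ?_, fun p _ => hf0 p, hg0, ?_, ?_, ?_, ?_, ?_⟩
  · intro p hp
    rw [hT, mem_filter] at hp
    exact ⟨hP p hp.1, hp.2, (hd p hp.1).1 hp.2⟩
  · intro p hp
    rw [hT, mem_filter] at hp
    exact hcl p hp.1 hp.2
  · intro p hp
    rw [← hth w p hL1]
    exact mul_le_mul_of_nonneg_right (hfl p) (by linarith)
  · intro p hp
    rw [hT, mem_filter] at hp
    rw [← hth w' p hL1']
    exact mul_le_mul_of_nonneg_right (hfl' p hp.1) (by linarith)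
  · rwa [le_div_iff₀ (by linarith)] at hgl
  · rwa [le_div_iff₀ (by linarith)] at hgl'
  -- the total
  have hsumT : ∑ p ∈ P, th e w p ≤ ∑ p ∈ T, f p + P.card / M := by
    have h1 : ∑ p ∈ P, th e w p = ∑ p ∈ T, th e w p := by
      symm
      rw [hT]
      apply sum_filter_of_ne
      intro p _ hp
      by_contra hnd
      apply hp
      unfold th
      rw [Nat.factorization_eq_zero_of_not_dvd hnd]
      simp
    rw [h1]
    have h2 : ∑ p ∈ T, th e w p ≤ ∑ p ∈ T, (f p + 1 / M) := by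
      refine sum_le_sum fun p _ => ?_
      have := (Nat.lt_floor_add_one (M * th e w p)).le
      simp only [hf]
      rw [← add_div, le_div_iff₀ hM0, mul_comm]
      exact this
    rw [sum_add_distrib, sum_const, nsmul_eq_mul] at h2
    have h3 : (T.card : ℝ) ≤ P.card := by exact_mod_cast card_le_card (filter_subset _ _)
    have h4 : (T.card : ℝ) * (1 / M) ≤ P.card / M := by
      rw [mul_one_div]
      exact div_le_div_of_nonneg_right h3 hM0.le
    linarith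
  have hgT : gg e w / L ≤ g + 1 / M := by
    have := (Nat.lt_floor_add_one (M * (gg e w / L))).le
    rw [hg, ← add_div, le_div_iff₀ hM0, mul_comm]
    exact this
  have hP1 : (P.card : ℝ) / M + 1 / M = 1 / J := by
    rw [← add_div, hMe]
    field_simp
  have h1 := total_ge h.gd
  have h2 := h.sm
  have h3 : (∑ p ∈ P, th e w p) * L = ∑ p ∈ P, ((Vl e w).factorization p : ℝ) * Real.log p := by
    rw [sum_mul]
    exact sum_congr rfl fun p _ => hth w p hL1
  have h4 : (∑ p ∈ P, th e w p + gg e w / L) * L ≥ (1 - θ - 1 / J) * L := by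
    rw [add_mul, h3, div_mul_cancel₀ _ (by linarith : L ≠ 0)]
    have h5 : 1 / (J : ℝ) * L ≥ Real.log 2 := by
      have h6 := h.l1
      rw [one_div, inv_mul_eq_div, ge_iff_le, le_div_iff₀ (by linarith), mul_comm]
      exact h6
    have h7 : (1 - θ - 1 / J) * L = L - θ * L - 1 / J * L := by ring
    rw [h7]
    linarith
  have h5 : 1 - θ - 1 / J ≤ ∑ p ∈ P, th e w p + gg e w / L :=
    le_of_mul_le_mul_right h4 (by linarith)
  have h6 : (2 : ℝ) / J = 1 / J + 1 / J := by ring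
  rw [h6]
  linarith

/-- Two different pairs of the same class: the gap. -/
theorem class_gap2 {k J : ℕ} {θ : ℝ} (hk : 1 ≤ k) (hJ : 1 ≤ J) (hF : 5 / 2 ≤ k * (1 - θ - 2 / J))
    {P : Finset ℕ} (hP : ∀ p ∈ P, p.Prime) {e : Bool} {w w' : ℕ × ℕ} (h : Hyp2 k J θ P e w) (h' : Hyp2 k J θ P e w')
    (hα : al k w.1 = al k w'.1) (hβ : al k w.2 = al k w'.2)
    (hd : ∀ p ∈ P, (p ∣ Vl e w ↔ p ∣ Vl e w'))
    (hpat : ∀ p ∈ P, ⌊((J * (P.card + 1) : ℕ) : ℝ) * th e w p⌋₊ = ⌊((J * (P.card + 1) : ℕ) : ℝ) * th e w' p⌋₊)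
    (hgg : ⌊((J * (P.card + 1) : ℕ) : ℝ) * (gg e w / Real.log (Ht e w))⌋₊ =
      ⌊((J * (P.card + 1) : ℕ) : ℝ) * (gg e w' / Real.log (Ht e w'))⌋₊)
    (hcl : ∀ p ∈ P, p ∣ Vl e w → cls p (rt k w.1) (rt k w.2) = cls p (rt k w'.1) (rt k w'.2))
    (hne : w ≠ w') (hLL : Real.log (Ht e w) ≤ Real.log (Ht e w')) :
    5 / 4 * Real.log (Ht e w) ≤ Real.log (Ht e w') := by
  obtain ⟨T, f, g, t1, t2, t3, t4, t5, t6, t7, t8, htot⟩ := class_fg hJ hP h h' hd hpat hgg hcl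
  have hL1 := h.l3
  have key := gap_two hk h.gd h'.gd hα hβ T t1 t2 f g t3 t4 (by linarith) hLL t5 t6 t7 t8 hne
  set L := Real.log (Ht e w) with hL
  set L' := Real.log (Ht e w') with hL'
  have hk0 : (0 : ℝ) < k := by exact_mod_cast hk
  have h1 : (∑ p ∈ T, f p + g) * L * k ≤ k * Real.log k + (L + L') := by
    have h2 := mul_le_mul_of_nonneg_right key hk0.le
    have h3 : (Real.log k + (L + L') / k) * k = k * Real.log k + (L + L') := by
      field_simp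
    rw [h3] at h2
    exact h2
  have h2 : 5 / 2 * L ≤ (∑ p ∈ T, f p + g) * L * k := by
    have h3 : k * (1 - θ - 2 / J) ≤ k * (∑ p ∈ T, f p + g) := mul_le_mul_of_nonneg_left htot hk0.le
    calc 5 / 2 * L ≤ (k * (∑ p ∈ T, f p + g)) * L := mul_le_mul_of_nonneg_right (hF.trans h3) (by linarith)
      _ = (∑ p ∈ T, f p + g) * L * k := by ring
  have h3 := h.l2
  linarith

/-- the small terms -/
theorem small_terms {k n : ℕ} (hk : 3 ≤ k) :
    (2 * n + 1) * Real.log k + Real.log (Cn k n) + (k * n + 3) * Real.log 2 ≤ 6 * k * (n + 1) := by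
  have hk0 : (3 : ℝ) ≤ k := by exact_mod_cast hk
  have hn0 : (0 : ℝ) ≤ n := Nat.cast_nonneg _
  have hlk : Real.log k ≤ k - 1 := Real.log_le_sub_one_of_pos (by linarith)
  have hlog2 : Real.log 2 ≤ 1 := by
    have := Real.log_le_sub_one_of_pos (show (0 : ℝ) < 2 by norm_num)
    linarith
  have hlog20 : 0 ≤ Real.log 2 := Real.log_nonneg (by norm_num)
  have hC : Real.log (Cn k n) ≤ n + n * (2 * k) := by
    have h1 := Cn_le k n (by omega)
    have h2 : Real.log (Cn k n) ≤ Real.log ((n + 1) * (4 * k * (k + 1)) ^ n) :=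
      Real.log_le_log (Cn_pos k n (by omega)) h1
    rw [Real.log_mul (by positivity) (by positivity), Real.log_pow] at h2
    have h3 : Real.log ((n : ℝ) + 1) ≤ n := by
      have := Real.log_le_sub_one_of_pos (show (0 : ℝ) < n + 1 by linarith)
      linarith
    have h4 : Real.log (4 * k * (k + 1)) ≤ 2 * k := by
      have h5 : Real.log (4 * k * (k + 1)) ≤ Real.log ((2 * (k + 1)) ^ 2 : ℝ) := by
        apply Real.log_le_log (by positivity)
        nlinarith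
      rw [Real.log_pow] at h5
      -- `log (2(k+1)) ≤ k`
      have h6 : Real.log (2 * (k + 1) : ℝ) ≤ k := by
        have h7 : (2 * (k + 1) : ℝ) ≤ Real.exp k := by
          have h8 := Real.quadratic_le_exp_of_nonneg (show (0 : ℝ) ≤ k by linarith)
          have h9 : (2 * (k + 1) : ℝ) ≤ 1 + k + k ^ 2 / 2 := by nlinarith
          linarith
        calc Real.log (2 * (k + 1) : ℝ) ≤ Real.log (Real.exp k) := Real.log_le_log (by positivity) h7
          _ = k := Real.log_exp _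
      push_cast at h5
      linarith
    have h5 : (n : ℝ) * Real.log (4 * k * (k + 1)) ≤ n * (2 * k) := mul_le_mul_of_nonneg_left h4 hn0
    linarith
  have h1 : (2 * (n : ℝ) + 1) * Real.log k ≤ (2 * n + 1) * (k - 1) := mul_le_mul_of_nonneg_left hlk (by positivity)
  have h2 : ((k : ℝ) * n + 3) * Real.log 2 ≤ (k * n + 3) * 1 := mul_le_mul_of_nonneg_left hlog2 (by positivity)
  nlinarith

/-- Two different pairs of the same class: the large one is not much larger. -/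
theorem class_big {k J : ℕ} {θ : ℝ} (hk : 3 ≤ k) (hJ : 1 ≤ J) (hF : 1 / 2 + 1 / (k : ℝ) + 1 / 10 ≤ 1 - θ - 2 / J)
    {P : Finset ℕ} (hP : ∀ p ∈ P, p.Prime) {e : Bool} {w w' : ℕ × ℕ} (h : Hyp2 k J θ P e w) (h' : Hyp2 k J θ P e w')
    (hα : al k w.1 = al k w'.1) (hβ : al k w.2 = al k w'.2)
    (hd : ∀ p ∈ P, (p ∣ Vl e w ↔ p ∣ Vl e w'))
    (hpat : ∀ p ∈ P, ⌊((J * (P.card + 1) : ℕ) : ℝ) * th e w p⌋₊ = ⌊((J * (P.card + 1) : ℕ) : ℝ) * th e w' p⌋₊)
    (hgg : ⌊((J * (P.card + 1) : ℕ) : ℝ) * (gg e w / Real.log (Ht e w))⌋₊ =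
      ⌊((J * (P.card + 1) : ℕ) : ℝ) * (gg e w' / Real.log (Ht e w'))⌋₊)
    (hcl : ∀ p ∈ P, p ∣ Vl e w → cls p (rt k w.1) (rt k w.2) = cls p (rt k w'.1) (rt k w'.2))
    (hLL : Real.log (Ht e w) ≤ Real.log (Ht e w')) :
    Real.log (Ht e w') ≤ 25 * Real.log (Ht e w) := by
  obtain ⟨T, f, g, t1, t2, t3, t4, t5, t6, t7, t8, htot⟩ := class_fg hJ hP h h' hd hpat hgg hcl
  have hL1 := h.l3
  have hL4 := h.l4
  by_contra hcon
  push Not at hcon
  set L := Real.log (Ht e w) with hL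
  set L' := Real.log (Ht e w') with hL'
  have hk0 : (3 : ℝ) ≤ k := by exact_mod_cast hk
  have hL0 : 0 < L := by linarith
  -- the choice of the degree
  obtain ⟨n, hn1, hn2⟩ : ∃ n : ℕ, L' ≤ (2 * n + 1) * L ∧ (2 * n - 1) * L ≤ L' := by
    refine ⟨⌈(L' / L - 1) / 2⌉₊, ?_, ?_⟩
    · have h1 := Nat.le_ceil ((L' / L - 1) / 2)
      have h2 : L' / L ≤ 2 * (⌈(L' / L - 1) / 2⌉₊ : ℝ) + 1 := by linarith
      rwa [div_le_iff₀ hL0] at h2
    · have h0 : 0 ≤ (L' / L - 1) / 2 := by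
        have : 1 ≤ L' / L := by
          rw [le_div_iff₀ hL0]
          linarith
        linarith
      have h1 := (Nat.ceil_lt_add_one h0).le
      have h2 : 2 * (⌈(L' / L - 1) / 2⌉₊ : ℝ) - 1 ≤ L' / L := by linarith
      rwa [le_div_iff₀ hL0] at h2
  obtain ⟨N, hN1, hN2, hne⟩ : ∃ N : ℕ, n ≤ N ∧ N ≤ n + 1 ∧ LL k N e w w' ≠ 0 := by
    rcases LL_ne (by omega : 2 ≤ k) n h.gd h'.gd with h1 | h1
    · exact ⟨n, le_rfl, Nat.le_succ _, h1⟩
    · exact ⟨n + 1, Nat.le_succ _, le_rfl, h1⟩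
  have key := lam_two (by omega : 2 ≤ k) h.gd h'.gd hα hβ T t1 t2 f g t3 t4 hL0 hLL t5 t6 t7 t8 N hne
  rw [← hL, ← hL'] at key
  have hN1r : (n : ℝ) ≤ N := by exact_mod_cast hN1
  have hN2r : (N : ℝ) ≤ n + 1 := by exact_mod_cast hN2
  have hmin : min L' ((2 * N + 1) * L) = L' := by
    apply min_eq_left
    refine hn1.trans ?_
    exact mul_le_mul_of_nonneg_right (by linarith) hL0.le
  rw [hmin] at key
  have hsm := small_terms (k := k) (n := N) hk
  have h1 : (1 / 2 + 1 / (k : ℝ) + 1 / 10) * L' ≤ (∑ p ∈ T, f p + g) * L' :=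
    mul_le_mul_of_nonneg_right (hF.trans htot) (by linarith)
  have h2 : (N : ℝ) * L ≤ L' / 2 + 3 / 2 * L := by
    have h3 : (N : ℝ) * L ≤ (n + 1) * L := mul_le_mul_of_nonneg_right hN2r hL0.le
    linarith
  have h3 : 6 * (k : ℝ) * (N + 1) ≤ L' / 1000 + L / 100 := by
    have h4 : 6 * (k : ℝ) ≤ L / 1000 := by linarith
    have h5 : 6 * (k : ℝ) * (N + 1) ≤ L / 1000 * (N + 1) := mul_le_mul_of_nonneg_right h4 (by positivity)
    nlinarith
  have h4 : (L + L') / k = L / k + L' / k := by ring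
  have h5 : L / k ≤ L / 3 := div_le_div_of_nonneg_left hL0.le (by norm_num) hk0
  have h6 : (1 / 2 + 1 / (k : ℝ) + 1 / 10) * L' = L' / 2 + L' / k + L' / 10 := by ring
  rw [h4] at key
  rw [h6] at h1
  linarith

end Pool.MP_a95293_nt.AH
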