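import Pool.Agent.Lib_MP_a95293_ah.Cls2

/-!
# The number of pairs with given known primes, at all heights
-/

set_option autoImplicit false

namespace Pool.MP_a95293_nt.AH

open Finset Pool.MP_a95293_nt.RC Pool.MP_a95293_nt.TP

/-- a set of positive numbers with gaps and bounded ratios -/
theorem gap_card2 {ι : Type*} (Z : Finset ι) (ℓ : ι → ℝ) (h1 : ∀ z ∈ Z, 1 ≤ ℓ z)
    (hgap : ∀ z ∈ Z, ∀ z' ∈ Z, z ≠ z' → ℓ z ≤ ℓ z' → 5 / 4 * ℓ z ≤ ℓ z' ∧ ℓ z' ≤ 25 * ℓ z) :
    (Z.card : ℝ) ≤ 18 := by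
  classical
  rcases Z.eq_empty_or_nonempty with he | hne
  · rw [he, card_empty]
    norm_num
  obtain ⟨z0, hz0, hmin⟩ := exists_min_image Z ℓ hne
  have h0 := h1 z0 hz0
  have h0' : 0 < ℓ z0 := by linarith
  have hlog : Real.log 25 ≤ 17 / 5 := by
    have h2 : (25 : ℝ) ≤ Real.exp (17 / 5) := by
      have h3 : Real.exp (17 / 5) = Real.exp 1 ^ 3 * Real.exp (2 / 5) := by
        rw [← Real.exp_nat_mul, ← Real.exp_add]
        norm_num
      have h4 := Real.exp_one_gt_d9
      have h5 := Real.add_one_le_exp (2 / 5 : ℝ)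
      have h6 : (2.7 : ℝ) ^ 3 ≤ Real.exp 1 ^ 3 := pow_le_pow_left₀ (by norm_num) (by linarith) 3
      rw [h3]
      calc (25 : ℝ) ≤ 2.7 ^ 3 * (2 / 5 + 1) := by norm_num
        _ ≤ _ := mul_le_mul h6 h5 (by norm_num) (by positivity)
    calc Real.log 25 ≤ Real.log (Real.exp (17 / 5)) := Real.log_le_log (by norm_num) h2
      _ = 17 / 5 := Real.log_exp _
  have hlog0 : 0 ≤ Real.log 25 := Real.log_nonneg (by norm_num)
  have h2 := gap_card Z (fun z => ℓ z / ℓ z0) (Real.log 25)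
    (by
      intro z hz
      rw [le_div_iff₀ h0', one_mul]
      exact hmin z hz)
    (by
      intro z hz
      rw [Real.exp_log (by norm_num), div_le_iff₀ h0']
      by_cases h3 : z0 = z
      · rw [← h3]
        linarith
      · exact (hgap z0 hz0 z hz h3 (hmin z hz)).2)
    (by
      intro z hz z' hz' hne hle
      rw [div_le_div_iff_of_pos_right h0'] at hle
      have h3 := (hgap z hz z' hz' hne hle).1
      rw [← mul_div_assoc]
      exact div_le_div_of_nonneg_right h3 h0'.le) hlog0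
  linarith

/-- **The number of pairs with known primes `P`.** -/
theorem cls_card2 {k J : ℕ} {θ : ℝ} (hk3 : 3 ≤ k) (hJ : 1 ≤ J) (hF : 5 / 2 ≤ k * (1 - θ - 2 / J))
    (hF2 : 1 / 2 + 1 / (k : ℝ) + 1 / 10 ≤ 1 - θ - 2 / J)
    {P : Finset ℕ} (hP : ∀ p ∈ P, p.Prime) (e : Bool) (Z : Finset (ℕ × ℕ))
    (hZ : ∀ w ∈ Z, Hyp2 k J θ P e w) : (Z.card : ℝ) ≤ (CC k J : ℝ) ^ (P.card + 1) * 18 := by
  classical
  have hk : 1 ≤ k := by omega
  set M : ℕ := J * (P.card + 1) with hM
  have hMr : (0 : ℝ) ≤ (M : ℝ) := Nat.cast_nonneg _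
  -- the keys
  set key : ℕ × ℕ → (P → ℕ × ℕ × ℕ) × (P → ℕ) × ℕ := fun w =>
    (fun p => (w.1.factorization p % k, w.2.factorization p % k, if (p : ℕ) ∣ Vl e w then 1 else 0),
      fun p => ⌊(M : ℝ) * th e w p⌋₊, ⌊(M : ℝ) * (gg e w / Real.log (Ht e w))⌋₊) with hkey
  set KK : Finset ((P → ℕ × ℕ × ℕ) × (P → ℕ) × ℕ) :=
    (Fintype.piFinset fun _ : P => range k ×ˢ range k ×ˢ range 2) ×ˢ
    ((Fintype.piFinset fun _ : P => range (M + 1)).filter fun φ => ∑ p, φ p ≤ M) ×ˢ range (M + 1) with hKK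
  have hsum : ∀ w ∈ Z, ∑ p : P, ⌊(M : ℝ) * th e w p⌋₊ ≤ M := by
    intro w hw
    have h := hZ w hw
    have hL : 1 ≤ Real.log (Ht e w) := h.l3
    have h1 : ((∑ p : P, ⌊(M : ℝ) * th e w p⌋₊ : ℕ) : ℝ) ≤ M := by
      push_cast
      calc ∑ p : P, (⌊(M : ℝ) * th e w p⌋₊ : ℝ) ≤ ∑ p : P, (M : ℝ) * th e w p :=
            sum_le_sum fun p _ => Nat.floor_le (mul_nonneg hMr (th_nonneg _ _ _))
        _ = (M : ℝ) * ∑ p ∈ P, th e w p := by
            rw [← mul_sum, sum_coe_sort P (fun p => th e w p)]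
        _ ≤ (M : ℝ) * 1 := by
            apply mul_le_mul_of_nonneg_left _ hMr
            unfold th
            rw [← sum_div, div_le_one (by linarith)]
            refine (sum_fac_le (Vl e w) h.gd.vl_pos.ne' P).trans ?_
            exact Real.log_le_log (by exact_mod_cast h.gd.vl_pos) (by exact_mod_cast h.gd.le3)
        _ = M := mul_one _
    exact_mod_cast h1
  have hmem : ∀ w ∈ Z, key w ∈ KK := by
    intro w hw
    have h := hZ w hw
    have hL : 1 ≤ Real.log (Ht e w) := h.l3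
    rw [hKK, mem_product, mem_product, mem_filter, Fintype.mem_piFinset, Fintype.mem_piFinset]
    refine ⟨fun p => ?_, ⟨fun p => ?_, hsum w hw⟩, ?_⟩
    · rw [mem_product, mem_product, mem_range, mem_range, mem_range]
      refine ⟨Nat.mod_lt _ (by omega), Nat.mod_lt _ (by omega), ?_⟩
      simp only [hkey]
      split_ifs <;> norm_num
    · rw [mem_range, Nat.lt_succ_iff]
      exact (single_le_sum (f := fun p : P => ⌊(M : ℝ) * th e w p⌋₊) (fun _ _ => Nat.zero_le _)
        (mem_univ p)).trans (hsum w hw)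
    · rw [mem_range, Nat.lt_succ_iff]
      have h1 : gg e w / Real.log (Ht e w) ≤ 1 := by
        rw [div_le_one (by linarith)]
        exact gg_le h.gd
      have h2 : (M : ℝ) * (gg e w / Real.log (Ht e w)) ≤ (M : ℝ) := by
        calc (M : ℝ) * (gg e w / Real.log (Ht e w)) ≤ (M : ℝ) * 1 := mul_le_mul_of_nonneg_left h1 hMr
          _ = M := mul_one _
      exact Nat.floor_le_of_le h2
  have hKKcard : KK.card ≤ (2 * k ^ 2) ^ P.card * (2 ^ (M + P.card) * (M + 1)) := by
    rw [hKK, card_product, card_product, card_range, Fintype.card_piFinset]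
    apply Nat.mul_le_mul
    · rw [prod_const, card_univ, Fintype.card_coe]
      apply le_of_eq
      rw [card_product, card_product, card_range, card_range]
      ring
    · exact Nat.mul_le_mul_right _ (pat_count' P M)
  -- the fibres
  have hfib : ∀ κ : (P → ℕ × ℕ × ℕ) × (P → ℕ) × ℕ, ((Z.filter fun w => key w = κ).card : ℝ) ≤
      ((k + 1 : ℕ) : ℝ) ^ P.card * 18 := by
    intro κ
    rcases (Z.filter fun w => key w = κ).eq_empty_or_nonempty with he | ⟨w0, hw0⟩
    · rw [he, card_empty]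
      push_cast
      positivity
    rw [mem_filter] at hw0
    have h0 := hZ w0 hw0.1
    set α : ℕ := al k w0.1 with hα
    set β : ℤ := be e k w0.2 with hβ
    have hQ : ∀ p : ℕ, ∃ Q : Finset ℕ, Q.card ≤ k ∧ (2 ≤ k → p.Prime → ∀ x y : ℤ, ¬ (p : ℤ) ∣ (α : ℤ) →
        ¬ (p : ℤ) ∣ x → ¬ (p : ℤ) ∣ y → (p : ℤ) ∣ (α : ℤ) * x ^ k - β * y ^ k → cls p x y ∈ Q) := by
      intro p
      by_cases hp : 2 ≤ k ∧ p.Prime
      · obtain ⟨Q, h1, h2⟩ := cls_mem hp.1 hp.2 (α : ℤ) β
        exact ⟨Q, h1, fun _ _ => h2⟩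
      · exact ⟨∅, by simp, fun h h' => absurd ⟨h, h'⟩ hp⟩
    choose Q hQ1 hQ2 using hQ
    have hk2 : 2 ≤ k := by omega
    have hall : ∀ w ∈ Z.filter (fun w => key w = κ), Hyp2 k J θ P e w ∧
        (∀ p ∈ P, w.1.factorization p % k = w0.1.factorization p % k ∧
          w.2.factorization p % k = w0.2.factorization p % k ∧ (p ∣ Vl e w ↔ p ∣ Vl e w0) ∧
          ⌊(M : ℝ) * th e w p⌋₊ = ⌊(M : ℝ) * th e w0 p⌋₊) ∧
        ⌊(M : ℝ) * (gg e w / Real.log (Ht e w))⌋₊ = ⌊(M : ℝ) * (gg e w0 / Real.log (Ht e w0))⌋₊ ∧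
        al k w.1 = α ∧ al k w.2 = al k w0.2 := by
      intro w hw
      rw [mem_filter] at hw
      have h := hZ w hw.1
      have heq : key w = key w0 := hw.2.trans hw0.2.symm
      have hk1 : ∀ p : P, (w.1.factorization p % k, w.2.factorization p % k, if (p : ℕ) ∣ Vl e w then 1 else 0) =
          (w0.1.factorization p % k, w0.2.factorization p % k, if (p : ℕ) ∣ Vl e w0 then 1 else 0) := fun p =>
        congrFun (congrArg Prod.fst heq) p
      have hk2' : ∀ p : P, ⌊(M : ℝ) * th e w p⌋₊ = ⌊(M : ℝ) * th e w0 p⌋₊ := fun p =>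
        congrFun (congrArg (fun t => t.2.1) heq) p
      have hk3 : ⌊(M : ℝ) * (gg e w / Real.log (Ht e w))⌋₊ = ⌊(M : ℝ) * (gg e w0 / Real.log (Ht e w0))⌋₊ :=
        congrArg (fun t => t.2.2) heq
      have hA : ∀ p ∈ P, w.1.factorization p % k = w0.1.factorization p % k := fun p hp =>
        congrArg Prod.fst (hk1 ⟨p, hp⟩)
      have hB : ∀ p ∈ P, w.2.factorization p % k = w0.2.factorization p % k := fun p hp =>
        congrArg (fun t => t.2.1) (hk1 ⟨p, hp⟩)
      have hC : ∀ p ∈ P, (p ∣ Vl e w ↔ p ∣ Vl e w0) := by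
        intro p hp
        have h1 : (if (p : ℕ) ∣ Vl e w then 1 else 0) = (if (p : ℕ) ∣ Vl e w0 then 1 else 0) :=
          congrArg (fun t => t.2.2) (hk1 ⟨p, hp⟩)
        by_cases h2 : p ∣ Vl e w <;> by_cases h3 : p ∣ Vl e w0 <;> simp [h2, h3] at h1 ⊢
      refine ⟨h, fun p hp => ⟨hA p hp, hB p hp, hC p hp, hk2' ⟨p, hp⟩⟩, hk3, ?_, ?_⟩
      · rw [hα, al_key P h.e1, al_key P h0.e1]
        exact prod_congr rfl fun p hp => by rw [hA p hp]
      · rw [al_key P h.e2, al_key P h0.e2]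
        exact prod_congr rfl fun p hp => by rw [hB p hp]
    -- the classes of the ratio
    set QQ : Finset (P → ℕ) := Fintype.piFinset fun p : P => insert 0 (Q p) with hQQ
    set ck : ℕ × ℕ → P → ℕ := fun w p => if (p : ℕ) ∣ Vl e w0 then cls p (rt k w.1) (rt k w.2) else 0 with hck
    have hQQcard : QQ.card ≤ (k + 1) ^ P.card := by
      rw [hQQ, Fintype.card_piFinset]
      calc ∏ p : P, (insert 0 (Q p)).card ≤ ∏ _p : P, (k + 1) :=
            Finset.prod_le_prod' fun p _ => (card_insert_le _ _).trans (Nat.add_le_add_right (hQ1 p) 1)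
        _ = (k + 1) ^ P.card := by rw [prod_const, card_univ, Fintype.card_coe]
    have hckm : ∀ w ∈ Z.filter (fun w => key w = κ), ck w ∈ QQ := by
      intro w hw
      obtain ⟨h, hpp, _, ha, hb⟩ := hall w hw
      rw [hQQ, Fintype.mem_piFinset]
      intro p
      simp only [hck]
      split_ifs with hd
      · apply mem_insert_of_mem
        have hpr := hP p p.2
        have hdw : (p : ℕ) ∣ Vl e w := ((hpp p p.2).2.2.1).2 hd
        have hE := h.gd.eq3 k
        obtain ⟨h1, _, h2, h3⟩ := hE.not_dvd hk hpr hdw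
        rw [ha] at h1 hE
        have hb' : be e k w.2 = β := by
          rw [hβ]
          unfold be
          rw [hb]
        rw [hb'] at hE
        refine hQ2 p hk2 hpr _ _ h1 h2 h3 ?_
        rw [hE.val]
        exact_mod_cast hdw
      · exact mem_insert_self _ _
    have hfib2 : ∀ c ∈ QQ, (((Z.filter fun w => key w = κ).filter fun w => ck w = c).card : ℝ) ≤ 18 := by
      intro c _
      apply gap_card2 _ (fun w => Real.log (Ht e w))
      · intro w hw
        exact (hall w (mem_filter.1 hw).1).1.l3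
      · intro w hw w' hw' hne hle
        rw [mem_filter] at hw hw'
        obtain ⟨h, hpp, hg, ha, hb⟩ := hall w hw.1
        obtain ⟨h', hpp', hg', ha', hb'⟩ := hall w' hw'.1
        have hcl : ∀ p ∈ P, p ∣ Vl e w → cls p (rt k w.1) (rt k w.2) = cls p (rt k w'.1) (rt k w'.2) := by
          intro p hp hd
          have hd0 : p ∣ Vl e w0 := (hpp p hp).2.2.1.1 hd
          have h1 : ck w ⟨p, hp⟩ = ck w' ⟨p, hp⟩ := by rw [hw.2, hw'.2]
          simp only [hck, if_pos hd0] at h1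
          exact h1
        exact ⟨class_gap2 hk hJ hF hP h h' (ha.trans ha'.symm) (hb.trans hb'.symm)
          (fun p hp => (hpp p hp).2.2.1.trans (hpp' p hp).2.2.1.symm)
          (fun p hp => (hpp p hp).2.2.2.trans (hpp' p hp).2.2.2.symm) (hg.trans hg'.symm) hcl hne hle,
          class_big hk3 hJ hF2 hP h h' (ha.trans ha'.symm) (hb.trans hb'.symm)
          (fun p hp => (hpp p hp).2.2.1.trans (hpp' p hp).2.2.1.symm)
          (fun p hp => (hpp p hp).2.2.2.trans (hpp' p hp).2.2.2.symm) (hg.trans hg'.symm) hcl hle⟩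
    have hN : ((Z.filter fun w => key w = κ).card : ℝ) ≤ (QQ.card : ℝ) * 18 := by
      have h1 : (Z.filter fun w => key w = κ).card = ∑ c ∈ QQ, ((Z.filter fun w => key w = κ).filter fun w => ck w = c).card :=
        card_eq_sum_card_fiberwise hckm
      rw [h1]
      push_cast
      calc ∑ c ∈ QQ, (((Z.filter fun w => key w = κ).filter fun w => ck w = c).card : ℝ) ≤
            ∑ _c ∈ QQ, 18 := sum_le_sum hfib2
        _ = (QQ.card : ℝ) * 18 := by rw [sum_const, nsmul_eq_mul]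
    refine hN.trans ?_
    apply mul_le_mul_of_nonneg_right _ (by norm_num)
    exact_mod_cast hQQcard
  have h1 : (Z.card : ℝ) ≤ (KK.card : ℝ) * (((k + 1 : ℕ) : ℝ) ^ P.card * 18) := by
    have h2 : Z.card = ∑ κ ∈ KK, (Z.filter fun w => key w = κ).card := card_eq_sum_card_fiberwise hmem
    rw [h2, Nat.cast_sum]
    calc ∑ κ ∈ KK, ((Z.filter fun w => key w = κ).card : ℝ) ≤
          ∑ _κ ∈ KK, (((k + 1 : ℕ) : ℝ) ^ P.card * 18) := sum_le_sum fun κ _ => hfib κ
      _ = (KK.card : ℝ) * (((k + 1 : ℕ) : ℝ) ^ P.card * 18) := by rw [sum_const, nsmul_eq_mul]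
  refine h1.trans ?_
  rw [← mul_assoc]
  apply mul_le_mul_of_nonneg_right _ (by norm_num)
  have h2 : KK.card * (k + 1) ^ P.card ≤ CC k J ^ (P.card + 1) := by
    have hM2 : M + 1 ≤ 2 ^ M := Nat.lt_two_pow_self
    calc KK.card * (k + 1) ^ P.card ≤ ((2 * k ^ 2) ^ P.card * (2 ^ (M + P.card) * (M + 1))) * (k + 1) ^ P.card :=
          Nat.mul_le_mul_right _ hKKcard
      _ ≤ ((2 * k ^ 2) ^ P.card * (2 ^ (M + P.card) * 2 ^ M)) * (k + 1) ^ P.card :=
          Nat.mul_le_mul_right _ (Nat.mul_le_mul_left _ (Nat.mul_le_mul_left _ hM2))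
      _ = (2 * k ^ 2) ^ P.card * 2 ^ P.card * (k + 1) ^ P.card * (2 ^ M * 2 ^ M) := by
          rw [pow_add]
          ring
      _ = (4 * k ^ 2 * (k + 1)) ^ P.card * (4 ^ J) ^ (P.card + 1) := by
          have e1 : 2 ^ M * 2 ^ M = (4 ^ J) ^ (P.card + 1) := by
            rw [← mul_pow, hM, pow_mul]
            norm_num
          rw [e1, ← mul_pow, ← mul_pow]
          congr 2
          ring
      _ ≤ (4 * k ^ 2 * (k + 1)) ^ (P.card + 1) * (4 ^ J) ^ (P.card + 1) := by
          apply Nat.mul_le_mul_right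
          apply Nat.pow_le_pow_right _ (Nat.le_succ _)
          positivity
      _ = CC k J ^ (P.card + 1) := by
          rw [← mul_pow]
          rfl
  exact_mod_cast h2

end Pool.MP_a95293_nt.AH
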