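import Pool.Agent.Lib_MP_a95293_ah.Fam2
import Pool.Agent.Lib_MP_a95293_tp.Asy

/-!
# The number of pairs with many primes of small contribution, at all heights
-/

set_option autoImplicit false

namespace Pool.MP_a95293_nt.AH

open Finset Pool.MP_a95293_nt.RC Pool.MP_a95293_nt.TP

/-- **Pairs with many bad primes are in one of the families.** -/
theorem fml2_of_bad {X N k J : ℕ} {x δ η θ ε : ℝ} {z : ℕ × ℕ} (hz : Prm z) (hX : rd (pr3 z) ≤ X)
    (hx : x = (X : ℝ)) (hx1 : 1 ≤ x) (hN : N = ⌊x ^ (1 - δ)⌋₊)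
    (l1 : J * Real.log 2 ≤ Real.log (z.1 + z.2 : ℕ)) (l2 : 4 * k * Real.log k ≤ Real.log (z.1 + z.2 : ℕ))
    (l3 : 1 ≤ Real.log (z.1 + z.2 : ℕ)) (l4 : 6000 * k ≤ Real.log (z.1 + z.2 : ℕ)) (hηθ : η < θ) (hθ0 : 0 ≤ θ)
    (ht : δ * (1 / (θ - η) + 1) ≤ ε / 3) (hbad : x ^ ε < ∏ p ∈ bad η 0 z, (p : ℝ)) :
    ∃ i, Fml2 k J θ ((Icc 1 N).filter Squarefree) i z := by
  classical
  have hx0 : 0 < x := by linarith
  have hlx : 0 ≤ Real.log x := Real.log_nonneg hx1
  have hpp : ∀ p ∈ bad η 0 z, (0 : ℝ) < p := fun p hp => by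
    unfold bad at hp
    rw [mem_filter] at hp
    exact_mod_cast (Nat.prime_of_mem_primeFactors hp.1).pos
  have h1 : ε * Real.log x < ∑ p ∈ bad η 0 z, Real.log p := by
    rw [← Real.log_prod fun p hp => (hpp p hp).ne', ← Real.log_rpow hx0]
    exact Real.log_lt_log (Real.rpow_pos_of_pos hx0 _) hbad
  set A : Fin 3 → Finset ℕ := fun i => (cfv i z).primeFactors.filter fun p =>
    ((cfv i z).factorization p : ℝ) * Real.log p ≤ η * Real.log (z.1 + z.2 : ℕ) with hA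
  have hcov : ∀ p ∈ bad η 0 z, ∃ i ∈ (univ : Finset (Fin 3)), p ∈ A i := by
    intro p hp
    unfold bad at hp
    rw [mem_filter] at hp
    obtain ⟨hp, h⟩ := hp
    obtain ⟨i, hi⟩ := (mem_pr3 hz).1 hp
    rw [fact_cfv hz i hi] at h
    rcases h with h | ⟨k, h1, h2, h3⟩
    · exact ⟨i, mem_univ _, mem_filter.2 ⟨hi, h⟩⟩
    · omega
  have h2 := sum_cover (univ : Finset (Fin 3)) A (fun p => Real.log p)
    (fun p => Real.log_natCast_nonneg p) (bad η 0 z) hcov
  obtain ⟨i, -, h3⟩ : ∃ i ∈ (univ : Finset (Fin 3)), ε / 3 * Real.log x < ∑ p ∈ A i, Real.log p := by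
    by_contra hc
    push Not at hc
    have h3 := sum_le_sum hc
    rw [sum_const, nsmul_eq_mul, card_univ, Fintype.card_fin] at h3
    push_cast at h3
    linarith
  refine ⟨i, fml_n2 hz hX hx hx1 hN l1 l2 l3 l4 hηθ hθ0 i (filter_subset _ _) ?_ ht h3.le⟩
  intro p hp
  exact (mem_filter.1 hp).2

/-- **Few pairs have many primes of small contribution.** -/
theorem exc2 : ∃ X₀ : ℕ, ∀ X ≥ X₀, ∀ Z : Finset (ℕ × ℕ),
    (∀ z ∈ Z, Prm z ∧ rd (pr3 z) ≤ X ∧ 144000 ≤ Real.log (z.1 + z.2 : ℕ) ∧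
      (X : ℝ) ^ (1 / 20 : ℝ) < ∏ p ∈ bad (1 / 12) 0 z, (p : ℝ)) →
    (Z.card : ℝ) ≤ (X : ℝ) ^ (1 - 1 / 600 : ℝ) := by
  classical
  have e1 := log_pow_le (CC 24 200) (show (0 : ℝ) < 1 / 600 by norm_num) (3 * (CC 24 200 * 18))
  obtain ⟨X₁, hX₁⟩ := Filter.eventually_atTop.1 (tendsto_natCast_atTop_atTop.eventually
    (e1.and (Filter.eventually_ge_atTop (3 : ℝ))))
  refine ⟨X₁, fun X hX Z hZ => ?_⟩
  obtain ⟨g1, g2⟩ := hX₁ X hX
  have hX0 : (0 : ℝ) < X := by linarith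
  have hX1 : (1 : ℝ) ≤ X := by linarith
  set N := ⌊(X : ℝ) ^ (1 - 1 / 300 : ℝ)⌋₊ with hN
  have hN1 : 1 ≤ N := by
    rw [hN, Nat.one_le_floor_iff]
    exact Real.one_le_rpow hX1 (by norm_num)
  have hNX : (N : ℝ) ≤ (X : ℝ) ^ (1 - 1 / 300 : ℝ) := Nat.floor_le (by positivity)
  have hNX' : (N : ℝ) ≤ X := by
    refine hNX.trans ?_
    conv_rhs => rw [← Real.rpow_one (X : ℝ)]
    exact Real.rpow_le_rpow_of_exponent_le hX1 (by norm_num)
  have hN0 : (0 : ℝ) < N := by exact_mod_cast hN1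
  set S := (Icc 1 N).filter Squarefree with hS
  set A : Fin 3 → Finset (ℕ × ℕ) := fun i => Z.filter fun z => Fml2 24 200 (1 / 3) S i z with hA
  have hcov : Z ⊆ univ.biUnion A := by
    intro z hz
    obtain ⟨h1, h2, h3, h4⟩ := hZ z hz
    rw [mem_biUnion]
    have hlog2 : Real.log 2 ≤ 1 := by
      have := Real.log_le_sub_one_of_pos (show (0 : ℝ) < 2 by norm_num)
      linarith
    have hlog24 : Real.log ((24 : ℕ) : ℝ) ≤ 24 := by
      have := Real.log_le_sub_one_of_pos (show (0 : ℝ) < ((24 : ℕ) : ℝ) by norm_num)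
      push_cast at this ⊢
      linarith
    obtain ⟨i, hi⟩ := fml2_of_bad (X := X) (N := N) (k := 24) (J := 200) (x := (X : ℝ)) (δ := 1 / 300)
      (η := 1 / 12) (θ := 1 / 3) (ε := 1 / 20) h1 h2 rfl hX1 hN
      (by push_cast at h3 ⊢; linarith) (by push_cast at h3 hlog24 ⊢; linarith)
      (by linarith) (by push_cast at h3 ⊢; linarith) (by norm_num) (by norm_num) (by norm_num) h4
    exact ⟨i, mem_univ _, mem_filter.2 ⟨hz, hi⟩⟩
  have hone : ∀ i, ((A i).card : ℝ) ≤ CC 24 200 * 18 * (N * (1 + Real.log N) ^ (CC 24 200)) := by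
    intro i
    exact fml2_all (by norm_num) (by norm_num) (by norm_num) (by norm_num) hN1 i (A i)
      fun z hz => (mem_filter.1 hz).2
  have hc : (Z.card : ℝ) ≤ ∑ i, ((A i).card : ℝ) := by
    exact_mod_cast (card_le_card hcov).trans card_biUnion_le
  have hCC : (0 : ℝ) ≤ CC 24 200 := Nat.cast_nonneg _
  calc (Z.card : ℝ) ≤ ∑ _i : Fin 3, CC 24 200 * 18 * (N * (1 + Real.log N) ^ (CC 24 200)) :=
        hc.trans (sum_le_sum fun i _ => hone i)
    _ = N * (3 * (CC 24 200 * 18) * (1 + Real.log N) ^ (CC 24 200)) := by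
        rw [sum_const, nsmul_eq_mul, card_univ, Fintype.card_fin]
        push_cast
        ring
    _ ≤ (X : ℝ) ^ (1 - 1 / 300 : ℝ) * (3 * (CC 24 200 * 18) * (1 + Real.log X) ^ (CC 24 200)) := by
        apply mul_le_mul hNX _ _ (by positivity)
        · apply mul_le_mul_of_nonneg_left _ (by positivity)
          apply pow_le_pow_left₀
          · have := Real.log_natCast_nonneg N
            linarith
          · have := Real.log_le_log hN0 hNX'
            linarith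
        · have := Real.log_natCast_nonneg N
          positivity
    _ ≤ (X : ℝ) ^ (1 - 1 / 300 : ℝ) * (X : ℝ) ^ (1 / 600 : ℝ) := mul_le_mul_of_nonneg_left g1 (by positivity)
    _ = (X : ℝ) ^ (1 - 1 / 600 : ℝ) := by
        rw [← Real.rpow_add hX0]
        norm_num

end Pool.MP_a95293_nt.AH
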