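import Pool.Agent.Lib_MP_a95293_ah.Cnt2
import Pool.Agent.Lib_MP_a95293_tp.Hyp

/-!
# Summing over the known part of the radical, at all heights
-/

set_option autoImplicit false

namespace Pool.MP_a95293_nt.AH

open Finset Pool.MP_a95293_nt.RC Pool.MP_a95293_nt.TP

/-- **A family with known primes of product in `S`.** -/
theorem fam_gen {k J : ℕ} {θ : ℝ} (hk3 : 3 ≤ k) (hJ : 1 ≤ J) (hF : 5 / 2 ≤ k * (1 - θ - 2 / J))
    (hF2 : 1 / 2 + 1 / (k : ℝ) + 1 / 10 ≤ 1 - θ - 2 / J)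
    (e : Bool) (W : ℕ × ℕ → ℕ × ℕ) (hW : Function.Injective W) (S : Finset ℕ) (Z : Finset (ℕ × ℕ))
    (hZ : ∀ z ∈ Z, ∃ P : Finset ℕ, (∀ p ∈ P, p.Prime) ∧ ∏ p ∈ P, p ∈ S ∧ Hyp2 k J θ P e (W z)) :
    (Z.card : ℝ) ≤ ∑ R ∈ S, (CC k J : ℝ) ^ (R.primeFactors.card + 1) * 18 := by
  classical
  have h1 : ∀ z, ∃ P : Finset ℕ, z ∈ Z → ((∀ p ∈ P, p.Prime) ∧ ∏ p ∈ P, p ∈ S ∧ Hyp2 k J θ P e (W z)) := by
    intro z
    by_cases hz : z ∈ Z
    · obtain ⟨P, hP⟩ := hZ z hz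
      exact ⟨P, fun _ => hP⟩
    · exact ⟨∅, fun h => absurd h hz⟩
  choose P hP using h1
  have hpf : ∀ z ∈ Z, (∏ p ∈ P z, p).primeFactors = P z := fun z hz =>
    Nat.primeFactors_prod (hP z hz).1
  have hmem : ∀ z ∈ Z, (∏ p ∈ P z, p) ∈ S := fun z hz => (hP z hz).2.1
  have hfib : ∀ R ∈ S, ((Z.filter fun z => (∏ p ∈ P z, p) = R).card : ℝ) ≤
      (CC k J : ℝ) ^ (R.primeFactors.card + 1) * 18 := by
    intro R _
    rw [← card_image_of_injective _ hW]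
    apply cls_card2 hk3 hJ hF hF2 (fun p hp => Nat.prime_of_mem_primeFactors hp) e
    intro w hw
    rw [mem_image] at hw
    obtain ⟨z, hz, rfl⟩ := hw
    rw [mem_filter] at hz
    obtain ⟨hz, rfl⟩ := hz
    rw [hpf z hz]
    exact (hP z hz).2.2
  have h2 : Z.card = ∑ R ∈ S, (Z.filter fun z => (∏ p ∈ P z, p) = R).card :=
    card_eq_sum_card_fiberwise hmem
  rw [h2, Nat.cast_sum]
  exact sum_le_sum hfib

/-- the exceptional families -/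
def Fml2 (k J : ℕ) (θ : ℝ) (S : Finset ℕ) (i : Fin 3) (z : ℕ × ℕ) : Prop :=
  ∃ P : Finset ℕ, (∀ p ∈ P, p.Prime) ∧ ∏ p ∈ P, p ∈ S ∧ Hyp2 k J θ P (cfe i) (cfw i z)

theorem fml2_gen {k J : ℕ} {θ : ℝ} (hk3 : 3 ≤ k) (hJ : 1 ≤ J) (hF : 5 / 2 ≤ k * (1 - θ - 2 / J))
    (hF2 : 1 / 2 + 1 / (k : ℝ) + 1 / 10 ≤ 1 - θ - 2 / J) (S : Finset ℕ) (i : Fin 3) (Z : Finset (ℕ × ℕ))
    (hZ : ∀ z ∈ Z, Fml2 k J θ S i z) :
    (Z.card : ℝ) ≤ ∑ R ∈ S, (CC k J : ℝ) ^ (R.primeFactors.card + 1) * 18 :=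
  fam_gen hk3 hJ hF hF2 (cfe i) (cfw i) (cfw_inj i) S Z hZ

/-- all the known parts -/
theorem fml2_all {k J : ℕ} {θ : ℝ} (hk3 : 3 ≤ k) (hJ : 1 ≤ J) (hF : 5 / 2 ≤ k * (1 - θ - 2 / J))
    (hF2 : 1 / 2 + 1 / (k : ℝ) + 1 / 10 ≤ 1 - θ - 2 / J) {N : ℕ} (hN : 1 ≤ N) (i : Fin 3) (Z : Finset (ℕ × ℕ))
    (hZ : ∀ z ∈ Z, Fml2 k J θ ((Icc 1 N).filter Squarefree) i z) :
    (Z.card : ℝ) ≤ CC k J * 18 * (N * (1 + Real.log N) ^ (CC k J)) := by
  have h3 := sum_pow (CC k J) N hN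
  have hC0 : (0 : ℝ) ≤ CC k J := Nat.cast_nonneg _
  calc (Z.card : ℝ) ≤ ∑ R ∈ (Icc 1 N).filter Squarefree, (CC k J : ℝ) ^ (R.primeFactors.card + 1) * 18 :=
        fml2_gen hk3 hJ hF hF2 _ i Z hZ
    _ = CC k J * 18 * ∑ R ∈ (Icc 1 N).filter Squarefree, (CC k J : ℝ) ^ R.primeFactors.card := by
        rw [mul_sum]
        refine sum_congr rfl fun R _ => ?_
        rw [pow_succ]
        ring
    _ ≤ CC k J * 18 * (N * (1 + Real.log N) ^ (CC k J)) :=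
        mul_le_mul_of_nonneg_left h3 (mul_nonneg hC0 (by norm_num))

/-- known parts with at most `w` prime factors -/
theorem fml2_few {k J w : ℕ} {θ : ℝ} (hk3 : 3 ≤ k) (hJ : 1 ≤ J) (hF : 5 / 2 ≤ k * (1 - θ - 2 / J))
    (hF2 : 1 / 2 + 1 / (k : ℝ) + 1 / 10 ≤ 1 - θ - 2 / J) {N : ℕ} (i : Fin 3) (Z : Finset (ℕ × ℕ))
    (hZ : ∀ z ∈ Z, Fml2 k J θ ((Icc 1 N).filter fun R => R.primeFactors.card ≤ w) i z) :
    (Z.card : ℝ) ≤ N * ((CC k J : ℝ) ^ (w + 1) * 18) := by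
  have hC1 : (1 : ℝ) ≤ CC k J := by
    have : 0 < CC k J := by
      unfold CC
      positivity
    exact_mod_cast this
  calc (Z.card : ℝ) ≤ ∑ R ∈ (Icc 1 N).filter (fun R => R.primeFactors.card ≤ w),
          (CC k J : ℝ) ^ (R.primeFactors.card + 1) * 18 := fml2_gen hk3 hJ hF hF2 _ i Z hZ
    _ ≤ ∑ R ∈ (Icc 1 N).filter (fun R => R.primeFactors.card ≤ w), (CC k J : ℝ) ^ (w + 1) * 18 := by
        refine sum_le_sum fun R hR => ?_
        rw [mem_filter] at hR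
        apply mul_le_mul_of_nonneg_right _ (by norm_num)
        exact pow_le_pow_right₀ hC1 (by omega)
    _ = ((Icc 1 N).filter fun R => R.primeFactors.card ≤ w).card * ((CC k J : ℝ) ^ (w + 1) * 18) := by
        rw [sum_const, nsmul_eq_mul]
    _ ≤ N * ((CC k J : ℝ) ^ (w + 1) * 18) := by
        apply mul_le_mul_of_nonneg_right _ (by positivity)
        have h1 : ((Icc 1 N).filter fun R => R.primeFactors.card ≤ w).card ≤ N := by
          refine (card_filter_le _ _).trans ?_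
          rw [Nat.card_Icc, Nat.add_sub_cancel]
        exact_mod_cast h1

/-- the hypotheses for the primes outside `D` -/
theorem hyp_of2 {k J : ℕ} {θ : ℝ} {z : ℕ × ℕ} (hz : Prm z) (i : Fin 3) {D : Finset ℕ}
    (hD0 : D ⊆ (pr3 z).primeFactors) (l1 : J * Real.log 2 ≤ Real.log (z.1 + z.2 : ℕ))
    (l2 : 4 * k * Real.log k ≤ Real.log (z.1 + z.2 : ℕ)) (l3 : 1 ≤ Real.log (z.1 + z.2 : ℕ))
    (l4 : 6000 * k ≤ Real.log (z.1 + z.2 : ℕ)) (hD : ∀ p ∈ D, ∀ j, j ≠ i → k ∣ (cfv j z).factorization p)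
    (hθ : ∑ p ∈ D, ((cfv i z).factorization p : ℝ) * Real.log p ≤ θ * Real.log (z.1 + z.2 : ℕ)) :
    Hyp2 k J θ ((pr3 z).primeFactors \ D) (cfe i) (cfw i z) := by
  classical
  have hout : ∀ j, j ≠ i → ∀ p, p ∉ (pr3 z).primeFactors \ D → k ∣ (cfv j z).factorization p := by
    intro j hj p hp
    by_cases hpD : p ∈ D
    · exact hD p hpD j hj
    · rw [fact_zero fun h => hp (mem_sdiff.2 ⟨(mem_pr3 hz).2 ⟨j, h⟩, hpD⟩)]
      exact dvd_zero _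
  refine ⟨cfw_Gd hz i, ?_, ?_, ?_, ?_, ?_, ?_, ?_⟩
  · rwa [cfw_Ht]
  · rwa [cfw_Ht]
  · rwa [cfw_Ht]
  · rwa [cfw_Ht]
  · intro p hp
    obtain ⟨j, hj, e⟩ := cfw_fst z i
    rw [e]
    exact hout j hj p hp
  · intro p hp
    obtain ⟨j, hj, e⟩ := cfw_snd z i
    rw [e]
    exact hout j hj p hp
  · rw [cfw_Ht, cfw_Vl, log_cfv hz i]
    have h1 := sum_sdiff hD0 (f := fun p => ((cfv i z).factorization p : ℝ) * Real.log p)
    linarith

/-- products of distinct primes -/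
theorem sqf_mem {N : ℕ} {P : Finset ℕ} (hP : ∀ p ∈ P, p.Prime) (h : ∏ p ∈ P, p ≤ N) :
    ∏ p ∈ P, p ∈ (Icc 1 N).filter Squarefree := by
  rw [mem_filter, mem_Icc]
  refine ⟨⟨prod_pos fun p hp => (hP p hp).pos, h⟩, ?_⟩
  apply Finset.squarefree_prod_of_pairwise_isCoprime
  · intro p hp q hq hpq
    exact Nat.coprime_iff_isRelPrime.1 ((Nat.coprime_primes (hP p hp) (hP q hq)).2 hpq)
  · intro p hp
    exact (hP p hp).prime.squarefree

/-- a term with many primes of small contribution -/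
theorem fml_n2 {X N k J : ℕ} {x t δ η θ : ℝ} {z : ℕ × ℕ} (hz : Prm z) (hX : rd (pr3 z) ≤ X) (hx : x = (X : ℝ))
    (hx1 : 1 ≤ x) (hN : N = ⌊x ^ (1 - δ)⌋₊) (l1 : J * Real.log 2 ≤ Real.log (z.1 + z.2 : ℕ))
    (l2 : 4 * k * Real.log k ≤ Real.log (z.1 + z.2 : ℕ)) (l3 : 1 ≤ Real.log (z.1 + z.2 : ℕ))
    (l4 : 6000 * k ≤ Real.log (z.1 + z.2 : ℕ)) (hηθ : η < θ) (hθ0 : 0 ≤ θ) (i : Fin 3) {M : Finset ℕ}
    (hM0 : M ⊆ (cfv i z).primeFactors)
    (hM : ∀ p ∈ M, ((cfv i z).factorization p : ℝ) * Real.log p ≤ η * Real.log (z.1 + z.2 : ℕ))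
    (ht : δ * (1 / (θ - η) + 1) ≤ t) (hMt : t * Real.log x ≤ ∑ p ∈ M, Real.log p) : Fml2 k J θ ((Icc 1 N).filter Squarefree) i z := by
  classical
  set L := Real.log (z.1 + z.2 : ℕ) with hL
  have hL0 : 0 < L := by linarith
  have hθη : 0 < θ - η := by linarith
  have hlx : 0 ≤ Real.log x := Real.log_nonneg hx1
  obtain ⟨D, hDM, hD1, hD2⟩ := greedy (a := η * L) (T := θ * L) (mul_lt_mul_of_pos_right hηθ hL0)
    (mul_nonneg hθ0 hL0.le) (fun p => ((cfv i z).factorization p : ℝ) * Real.log p) (fun p => Real.log p)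
    M.card M rfl (fun p _ => mul_nonneg (Nat.cast_nonneg _) (Real.log_natCast_nonneg p)) hM
    (fun p _ => Real.log_natCast_nonneg p)
  have hDs : D ⊆ (cfv i z).primeFactors := hDM.trans hM0
  have hD3 : D ⊆ (pr3 z).primeFactors := fun p hp => (mem_pr3 hz).2 ⟨i, hDs hp⟩
  have hw : ∑ p ∈ M, ((cfv i z).factorization p : ℝ) * Real.log p ≤ L := by
    refine (sum_fac_le (cfv i z) (cfv_pos hz i).ne' M).trans ?_
    exact Real.log_le_log (by exact_mod_cast cfv_pos hz i) (by exact_mod_cast cfv_le z i)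
  have hS0 : 0 ≤ ∑ p ∈ D, Real.log (p : ℝ) := sum_nonneg fun p _ => Real.log_natCast_nonneg p
  have hδ : δ * Real.log x ≤ ∑ p ∈ D, Real.log p := by
    have h1 : (∑ p ∈ M, ((cfv i z).factorization p : ℝ) * Real.log p) / (θ * L - η * L) + 1 ≤
        1 / (θ - η) + 1 := by
      have h2 : θ * L - η * L = (θ - η) * L := by ring
      rw [h2]
      have h3 : (∑ p ∈ M, ((cfv i z).factorization p : ℝ) * Real.log p) / ((θ - η) * L) ≤
          L / ((θ - η) * L) := div_le_div_of_nonneg_right hw (mul_pos hθη hL0).le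
      have h4 : L / ((θ - η) * L) = 1 / (θ - η) := by
        field_simp
      linarith
    have h5 : t * Real.log x ≤ (1 / (θ - η) + 1) * ∑ p ∈ D, Real.log (p : ℝ) :=
      (hMt.trans hD2).trans (mul_le_mul_of_nonneg_right h1 hS0)
    have h6 : 0 < 1 / (θ - η) + 1 := by positivity
    have h7 : δ * (1 / (θ - η) + 1) * Real.log x ≤ t * Real.log x := mul_le_mul_of_nonneg_right ht hlx
    have h8 : (1 / (θ - η) + 1) * (δ * Real.log x) ≤ (1 / (θ - η) + 1) * ∑ p ∈ D, Real.log (p : ℝ) := by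
      calc (1 / (θ - η) + 1) * (δ * Real.log x) = δ * (1 / (θ - η) + 1) * Real.log x := by ring
        _ ≤ _ := h7.trans h5
    exact le_of_mul_le_mul_left h8 h6
  refine ⟨_, fun p hp => Nat.prime_of_mem_primeFactors (mem_sdiff.1 hp).1,
    sqf_mem (fun p hp => Nat.prime_of_mem_primeFactors (mem_sdiff.1 hp).1)
      (prod_sdiff_le hX hD3 hx hx1 hN hδ), hyp_of2 hz i hD3 l1 l2 l3 l4 ?_ hD1⟩
  intro p hp m hm
  rw [fact_zero (only_one hz (Ne.symm hm) (hDs hp))]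
  exact dvd_zero _

end Pool.MP_a95293_nt.AH
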