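import Pool.Agent.Lib_MP_a95293_pq.Big
import Pool.Agent.Lib_MP_a95293_rc.Ev

/-!
# Pairs with a given radical
-/

set_option autoImplicit false

namespace Pool.MP_a95293_nt.AH

open Finset Pool.MP_a95293_nt.RC Pool.MP_a95293_nt.PQ

/-- the number of prime factors -/
theorem omega_le : ∃ X₀ : ℕ, ∀ X ≥ X₀, ∀ R : ℕ, 1 ≤ R → R ≤ X →
    (R.primeFactors.card : ℝ) * Real.log (Real.log X) ≤ 3 * Real.log X := by
  have e1 : ∀ᶠ y : ℝ in Filter.atTop, Real.log y ≤ 1 / 2 * y ^ (1 / 2 : ℝ) := by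
    have h := (isLittleO_log_rpow_atTop (show (0 : ℝ) < 1 / 2 by norm_num)).bound
      (show (0 : ℝ) < 1 / 2 by norm_num)
    filter_upwards [h, Filter.eventually_ge_atTop (1 : ℝ)] with y h1 h2
    rwa [Real.norm_of_nonneg (Real.log_nonneg h2), Real.norm_of_nonneg (by positivity)] at h1
  have htend : Filter.Tendsto (fun X : ℕ => Real.log X) Filter.atTop Filter.atTop :=
    Real.tendsto_log_atTop.comp tendsto_natCast_atTop_atTop
  obtain ⟨X₁, hX₁⟩ := Filter.eventually_atTop.1 (htend.eventually (e1.and (Filter.eventually_ge_atTop (4 : ℝ))))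
  refine ⟨max X₁ 1, fun X hX R hR hRX => ?_⟩
  obtain ⟨g1, g2⟩ := hX₁ X ((le_max_left _ _).trans hX)
  have hX1 : 1 ≤ X := (le_max_right _ _).trans hX
  have hX0 : (0 : ℝ) < X := by exact_mod_cast hX1
  set y := Real.log X with hy
  set q := y ^ (1 / 2 : ℝ) with hq
  have hy0 : 0 < y := by linarith
  have hq1 : 1 ≤ q := Real.one_le_rpow (by linarith) (by norm_num)
  have hqq : q * q = y := by
    rw [hq, ← Real.rpow_add hy0]
    norm_num
  have hly : 0 < Real.log y := Real.log_pos (by linarith)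
  set Y := ⌈q⌉₊ with hY
  have hYq : q ≤ Y := Nat.le_ceil q
  have hYq2 : (Y : ℝ) ≤ 2 * q := by
    have := Nat.ceil_lt_add_one (show 0 ≤ q by linarith)
    linarith
  have hY1 : 1 ≤ Y := by
    have : (1 : ℝ) ≤ Y := hq1.trans hYq
    exact_mod_cast this
  have hlY : 1 / 2 * Real.log y ≤ Real.log Y := by
    have h1 : Real.log q = 1 / 2 * Real.log y := by rw [hq, Real.log_rpow hy0]
    rw [← h1]
    exact Real.log_le_log (by linarith) hYq
  set w := R.primeFactors.card with hw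
  have h1 := prod_ge R.primeFactors (fun p hp => (Nat.prime_of_mem_primeFactors hp).one_lt.le) hY1
  have h2 : Y ^ (w - Y) ≤ X := (h1.trans (Nat.le_of_dvd hR (Nat.prod_primeFactors_dvd R))).trans hRX
  have h3 : ((w - Y : ℕ) : ℝ) * Real.log Y ≤ y := by
    have h4 : ((Y : ℝ) ^ (w - Y)) ≤ X := by exact_mod_cast h2
    have h5 := Real.log_le_log (by
      have : (0 : ℝ) < Y := by exact_mod_cast hY1
      positivity) h4
    rwa [Real.log_pow] at h5
  have h4 : (w : ℝ) ≤ ((w - Y : ℕ) : ℝ) + Y := by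
    have : w ≤ (w - Y) + Y := by omega
    exact_mod_cast this
  have h5 : ((w - Y : ℕ) : ℝ) * (1 / 2 * Real.log y) ≤ y :=
    (mul_le_mul_of_nonneg_left hlY (Nat.cast_nonneg _)).trans h3
  have h6 : (Y : ℝ) * Real.log y ≤ y := by
    calc (Y : ℝ) * Real.log y ≤ (2 * q) * (1 / 2 * q) := mul_le_mul hYq2 g1 hly.le (by linarith)
      _ = q * q := by ring
      _ = y := hqq
  calc (w : ℝ) * Real.log y ≤ (((w - Y : ℕ) : ℝ) + Y) * Real.log y := mul_le_mul_of_nonneg_right h4 hly.le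
    _ = 2 * (((w - Y : ℕ) : ℝ) * (1 / 2 * Real.log y)) + Y * Real.log y := by ring
    _ ≤ 3 * y := by linarith

/-- **Few pairs for each radical.** -/
theorem fib_small {τ : ℝ} (hτ : 0 < τ) : ∃ X₀ : ℕ, ∀ X ≥ X₀, ∀ W : Finset (ℕ × ℕ),
    (∀ z ∈ W, Prm z ∧ rd (pr3 z) ≤ X) →
    (W.card : ℝ) ≤ (W.image fun z => rd (pr3 z)).card * (X : ℝ) ^ τ := by
  classical
  obtain ⟨C₀, hC₀, hev⟩ := evertse
  obtain ⟨X₁, hX₁⟩ := omega_le
  have hC0R : (1 : ℝ) ≤ C₀ := by exact_mod_cast hC₀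
  have e1 : ∀ᶠ x : ℝ in Filter.atTop, (C₀ : ℝ) ≤ x ^ (τ / 2) :=
    (tendsto_rpow_atTop (by positivity)).eventually_ge_atTop _
  have e2 : ∀ᶠ x : ℝ in Filter.atTop, 6 * Real.log C₀ / τ ≤ Real.log (Real.log x) :=
    (Real.tendsto_log_atTop.comp Real.tendsto_log_atTop).eventually_ge_atTop _
  obtain ⟨X₂, hX₂⟩ := Filter.eventually_atTop.1 (tendsto_natCast_atTop_atTop.eventually
    ((e1.and e2).and (Filter.eventually_ge_atTop (3 : ℝ))))
  refine ⟨max X₁ X₂, fun X hX W hW => ?_⟩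
  have g0 : X₁ ≤ X := (le_max_left _ _).trans hX
  obtain ⟨⟨g1, g2⟩, g3⟩ := hX₂ X ((le_max_right _ _).trans hX)
  have hX0 : (0 : ℝ) < X := by linarith
  have hlX : 0 < Real.log X := Real.log_pos (by linarith)
  have hlC : 0 ≤ Real.log C₀ := Real.log_nonneg hC0R
  set ρ : ℕ × ℕ → ℕ := fun z => rd (pr3 z) with hρ
  have hone : ∀ R ∈ W.image ρ, ((W.filter fun z => ρ z = R).card : ℝ) ≤ (X : ℝ) ^ τ := by
    intro R hR
    rw [mem_image] at hR
    obtain ⟨z, hz, rfl⟩ := hR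
    obtain ⟨h1, h2⟩ := hW z hz
    have h5 := hev (pr3 z).primeFactors (W.filter fun z' => ρ z' = ρ z) fun z' hz' => by
      rw [mem_filter] at hz'
      refine ⟨(hW z' hz'.1).1, ?_⟩
      have h6 : rd (pr3 z') = rd (pr3 z) := hz'.2
      rw [← rd_primeFactors (pr3 z'), h6, rd_primeFactors]
    have h6 := hX₁ X g0 (rd (pr3 z)) (rd_pos _) h2
    rw [rd_primeFactors] at h6
    set w := (pr3 z).primeFactors.card with hw
    have h8 : (C₀ : ℝ) ^ w ≤ (X : ℝ) ^ (τ / 2) := by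
      rw [← Real.log_le_log_iff (by positivity) (by positivity), Real.log_pow, Real.log_rpow hX0]
      have h9 : (w : ℝ) * (6 * Real.log C₀ / τ) ≤ 3 * Real.log X :=
        (mul_le_mul_of_nonneg_left g2 (Nat.cast_nonneg _)).trans h6
      have h10 : (w : ℝ) * (6 * Real.log C₀ / τ) = w * Real.log C₀ * 6 / τ := by ring
      rw [h10, div_le_iff₀ hτ] at h9
      linarith
    calc ((W.filter fun z' => ρ z' = ρ z).card : ℝ) ≤ ((C₀ ^ (w + 1) : ℕ) : ℝ) := by exact_mod_cast h5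
      _ = C₀ * (C₀ : ℝ) ^ w := by
          push_cast
          ring
      _ ≤ (X : ℝ) ^ (τ / 2) * (X : ℝ) ^ (τ / 2) := mul_le_mul g1 h8 (by positivity) (by positivity)
      _ = (X : ℝ) ^ τ := by
          rw [← Real.rpow_add hX0]
          congr 1
          ring
  have hsum : (W.card : ℝ) = ∑ R ∈ W.image ρ, ((W.filter fun z => ρ z = R).card : ℝ) := by
    exact_mod_cast card_eq_sum_card_image ρ W
  rw [hsum]
  calc ∑ R ∈ W.image ρ, ((W.filter fun z => ρ z = R).card : ℝ) ≤ ∑ R ∈ W.image ρ, (X : ℝ) ^ τ := sum_le_sum hone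
    _ = (W.image ρ).card * (X : ℝ) ^ τ := by rw [sum_const, nsmul_eq_mul]

/-- a pair as a triple of integers -/
def tri (z : ℕ × ℕ) : Fin 3 → ℤ := ![(z.1 : ℤ), (z.2 : ℤ), -((z.1 + z.2 : ℕ) : ℤ)]

theorem tri_prod (z : ℕ × ℕ) : (∏ i, tri z i).natAbs = pr3 z := by
  unfold tri pr3
  rw [Fin.prod_univ_three]
  simp only [Matrix.cons_val_zero, Matrix.cons_val_one, Matrix.cons_val]
  rw [Int.natAbs_mul, Int.natAbs_mul, Int.natAbs_neg, Int.natAbs_natCast, Int.natAbs_natCast, Int.natAbs_natCast]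

/-- the triple of a pair, one of its primes being singled out -/
theorem tri_val {z : ℕ × ℕ} (hz : Prm z) {p : ℕ} (hp : p ∈ (pr3 z).primeFactors) :
    Val ((pr3 z).primeFactors.erase p) p (tri z) := by
  have h1 := hz.1
  have h2 := hz.2.1
  have c1 : IsCoprime (z.1 : ℤ) (z.2 : ℤ) := Nat.isCoprime_iff_coprime.2 hz.2.2
  have c2 : IsCoprime (z.1 : ℤ) (-((z.1 + z.2 : ℕ) : ℤ)) :=
    (Nat.isCoprime_iff_coprime.2 hz.cop1).neg_right
  have c3 : IsCoprime (z.2 : ℤ) (-((z.1 + z.2 : ℕ) : ℤ)) :=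
    (Nat.isCoprime_iff_coprime.2 hz.cop2).neg_right
  refine ⟨?_, ?_, ?_, ?_⟩
  · intro i
    fin_cases i
    · show (z.1 : ℤ) ≠ 0
      omega
    · show (z.2 : ℤ) ≠ 0
      omega
    · show -((z.1 + z.2 : ℕ) : ℤ) ≠ 0
      omega
  · intro i j hij
    fin_cases i <;> fin_cases j
    · exact absurd rfl hij
    · exact c1
    · exact c2
    · exact c1.symm
    · exact absurd rfl hij
    · exact c3
    · exact c2.symm
    · exact c3.symm
    · exact absurd rfl hij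
  · rw [Fin.sum_univ_three]
    show (z.1 : ℤ) + (z.2 : ℤ) + -((z.1 + z.2 : ℕ) : ℤ) = 0
    push_cast
    ring
  · rw [tri_prod, insert_erase hp]

end Pool.MP_a95293_nt.AH
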