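import Pool.Agent.Lib_MP_a95293_ah.Fam2

/-!
# Pairs with a large prime whose exponent has a small divisor
-/

set_option autoImplicit false

namespace Pool.MP_a95293_nt.AH

open Finset Pool.MP_a95293_nt.RC Pool.MP_a95293_nt.TP

private theorem Kf2_CC {k : ℕ} (hk : 3 ≤ k) {Q : ℝ} (hQ : (k : ℝ) ≤ Q) : (CC k 100 : ℝ) ≤ 4 ^ 102 * Q ^ 3 := by
  have hk0 : (3 : ℝ) ≤ k := by exact_mod_cast hk
  have h1 : (CC k 100 : ℝ) ≤ 4 ^ 102 * (k : ℝ) ^ 3 := by
    have h0 : (CC k 100 : ℝ) = 4 * (k : ℝ) ^ 2 * (k + 1) * 4 ^ 100 := by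
      unfold CC
      simp only [Nat.cast_mul, Nat.cast_pow, Nat.cast_add, Nat.cast_one, Nat.cast_ofNat]
    rw [h0]
    have h2 : 4 * (k : ℝ) ^ 2 * (k + 1) ≤ 4 ^ 2 * (k : ℝ) ^ 3 := by nlinarith [sq_nonneg (k : ℝ)]
    calc 4 * (k : ℝ) ^ 2 * (k + 1) * 4 ^ 100 ≤ 4 ^ 2 * (k : ℝ) ^ 3 * 4 ^ 100 :=
          mul_le_mul_of_nonneg_right h2 (by positivity)
      _ = 4 ^ 102 * (k : ℝ) ^ 3 := by
          rw [show (102 : ℕ) = 100 + 2 from rfl, pow_add (4 : ℝ) 100 2]
          ring
  refine h1.trans (mul_le_mul_of_nonneg_left (pow_le_pow_left₀ (by linarith) hQ 3) (by positivity))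

/-- **The twisted families.** -/
theorem kf2 (A : ℕ) {u : ℝ} (hu : 0 < u) : ∃ c : ℝ, 0 < c ∧ ∃ X₀ : ℕ, ∀ X ≥ X₀, ∀ W : Finset (ℕ × ℕ),
    (∀ z ∈ W, Prm z ∧ rd (pr3 z) ≤ X ∧
      ((pr3 z).primeFactors.card : ℝ) * Real.log (Real.log X) ≤ c * Real.log X ∧
      ∃ p ∈ (pr3 z).primeFactors, (X : ℝ) ^ u ≤ p ∧
        ∃ k : ℕ, 3 ≤ k ∧ (k : ℝ) ≤ Real.log X ^ A ∧ k ∣ (pr3 z).factorization p) →
    (W.card : ℝ) ≤ (X : ℝ) ^ (1 - u / 2) := by
  classical
  set c : ℝ := u / (8 * (3 * A + 1)) with hc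
  have hA0 : (0 : ℝ) ≤ A := Nat.cast_nonneg A
  have hA1 : (0 : ℝ) < 3 * A + 1 := by positivity
  have hc0 : 0 < c := by positivity
  have hcA : (3 * A + 1) * c = u / 8 := by
    rw [hc]
    field_simp
  refine ⟨c, hc0, ?_⟩
  have e1 : ∀ᶠ y : ℝ in Filter.atTop, Real.log y ≤ u / (16 * (4 * A + 1)) * y := by
    have h := Real.isLittleO_log_id_atTop.bound (show (0 : ℝ) < u / (16 * (4 * A + 1)) by positivity)
    filter_upwards [h, Filter.eventually_ge_atTop (1 : ℝ)] with y h1 h2
    rw [id, Real.norm_of_nonneg (Real.log_nonneg h2), Real.norm_of_nonneg (by linarith)] at h1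
    exact h1
  have e2 : ∀ᶠ y : ℝ in Filter.atTop, 142 ≤ Real.log y := Real.tendsto_log_atTop.eventually_ge_atTop _
  have htend : Filter.Tendsto (fun X : ℕ => Real.log X) Filter.atTop Filter.atTop :=
    Real.tendsto_log_atTop.comp tendsto_natCast_atTop_atTop
  obtain ⟨X₁, hX₁⟩ := Filter.eventually_atTop.1 (htend.eventually ((e1.and e2).and
    (Filter.eventually_ge_atTop (max 1 (6000 / u)))))
  refine ⟨max X₁ 1, fun X hX W hW => ?_⟩
  obtain ⟨⟨g1, g2⟩, g3⟩ := hX₁ X ((le_max_left _ _).trans hX)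
  have hX1' : 1 ≤ X := (le_max_right _ _).trans hX
  have hX1 : (1 : ℝ) ≤ X := by exact_mod_cast hX1'
  have hX0 : (0 : ℝ) < X := by linarith
  set y := Real.log X with hy
  have hy1 : 1 ≤ y := (le_max_left _ _).trans g3
  have huy : 6000 ≤ u * y := by
    have := (le_max_right _ _).trans g3
    rw [div_le_iff₀ hu] at this
    linarith
  have hly : 0 < Real.log y := by linarith
  have g1' : (4 * A + 1) * Real.log y ≤ u / 16 * y := by
    have h1 : (0 : ℝ) < 4 * A + 1 := by positivity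
    calc (4 * A + 1) * Real.log y ≤ (4 * A + 1) * (u / (16 * (4 * A + 1)) * y) :=
          mul_le_mul_of_nonneg_left g1 h1.le
      _ = u / 16 * y := by field_simp
  set N := ⌊(X : ℝ) ^ (1 - u)⌋₊ with hN
  set K := ⌊y ^ A⌋₊ with hK
  set w := ⌊c * y / Real.log y⌋₊ with hw
  have hyA : (0 : ℝ) ≤ y ^ A := by positivity
  have hKA : (K : ℝ) ≤ y ^ A := Nat.floor_le hyA
  have hwl : (w : ℝ) * Real.log y ≤ c * y := by
    have h1 : (w : ℝ) ≤ c * y / Real.log y := Nat.floor_le (by positivity)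
    rwa [le_div_iff₀ hly] at h1
  set S := (Icc 1 N).filter fun R => R.primeFactors.card ≤ w with hS
  set B : ℕ → Fin 3 → Finset (ℕ × ℕ) := fun k i => W.filter fun z => Fml2 k 100 0 S i z with hB
  have hcov : W ⊆ (Icc 3 K).biUnion fun k => univ.biUnion (B k) := by
    intro z hz
    obtain ⟨h1, h2, h3, p, hp, hpX, k, hk3, hkK, hkd⟩ := hW z hz
    have hpp := Nat.prime_of_mem_primeFactors hp
    have hp0 : (0 : ℝ) < p := by exact_mod_cast hpp.pos
    have hk0 : (3 : ℝ) ≤ k := by exact_mod_cast hk3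
    obtain ⟨i, hi⟩ := (mem_pr3 h1).1 hp
    rw [fact_cfv h1 i hi] at hkd
    have hv0 : 0 < (cfv i z).factorization p := by
      rw [Nat.mem_primeFactors] at hi
      exact hpp.factorization_pos_of_dvd hi.2.2 hi.2.1
    have hkv : k ≤ (cfv i z).factorization p := Nat.le_of_dvd hv0 hkd
    have hlp : u * y ≤ Real.log p := by
      rw [hy, ← Real.log_rpow hX0]
      exact Real.log_le_log (by positivity) hpX
    set L := Real.log (z.1 + z.2 : ℕ) with hL
    have hLk : k * (u * y) ≤ L := by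
      have h4 := sum_fac_le (cfv i z) (cfv_pos h1 i).ne' {p}
      rw [sum_singleton] at h4
      have h5 : Real.log (cfv i z) ≤ L :=
        Real.log_le_log (by exact_mod_cast cfv_pos h1 i) (by exact_mod_cast cfv_le z i)
      have h6 : (k : ℝ) ≤ (cfv i z).factorization p := by exact_mod_cast hkv
      calc (k : ℝ) * (u * y) ≤ (cfv i z).factorization p * Real.log p :=
            mul_le_mul h6 hlp (by positivity) (Nat.cast_nonneg _)
        _ ≤ L := h4.trans h5
    have hL18 : 18000 ≤ L := by nlinarith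
    have hlk : 4 * Real.log k ≤ u * y := by
      have h4 : Real.log k ≤ A * Real.log y := by
        have h5 := Real.log_le_log (by linarith) hkK
        rwa [Real.log_pow] at h5
      nlinarith
    have hlog2 : Real.log 2 ≤ 1 := by
      have := Real.log_le_sub_one_of_pos (show (0 : ℝ) < 2 by norm_num)
      linarith
    obtain ⟨j, hj⟩ : ∃ j : Fin 3, j ≠ i := by
      fin_cases i
      · exact ⟨1, by decide⟩
      · exact ⟨0, by decide⟩
      · exact ⟨0, by decide⟩
    have hD1 : {p} ⊆ (pr3 z).primeFactors := by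
      rw [singleton_subset_iff]
      exact hp
    rw [mem_biUnion]
    refine ⟨k, mem_Icc.2 ⟨hk3, Nat.le_floor hkK⟩, ?_⟩
    rw [mem_biUnion]
    refine ⟨j, mem_univ _, mem_filter.2 ⟨hz, (pr3 z).primeFactors \ {p}, fun q hq =>
      Nat.prime_of_mem_primeFactors (mem_sdiff.1 hq).1, ?_, ?_⟩⟩
    · rw [hS, mem_filter, mem_Icc]
      refine ⟨⟨prod_pos fun q hq => (Nat.prime_of_mem_primeFactors (mem_sdiff.1 hq).1).pos, ?_⟩, ?_⟩
      · apply prod_sdiff_le h2 hD1 rfl hX1 hN
        rw [sum_singleton]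
        exact hlp
      · rw [Nat.primeFactors_prod fun q hq => Nat.prime_of_mem_primeFactors (mem_sdiff.1 hq).1]
        refine (card_le_card sdiff_subset).trans ?_
        rw [hw]
        apply Nat.le_floor
        rw [le_div_iff₀ hly]
        exact h3
    · apply hyp_of2 h1 j hD1
      · have h100 : ((100 : ℕ) : ℝ) = 100 := by norm_num
        rw [h100, ← hL]
        linarith
      · calc 4 * (k : ℝ) * Real.log k = k * (4 * Real.log k) := by ring
          _ ≤ k * (u * y) := mul_le_mul_of_nonneg_left hlk (by linarith)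
          _ ≤ L := hLk
      · linarith
      · calc 6000 * (k : ℝ) = k * 6000 := by ring
          _ ≤ k * (u * y) := mul_le_mul_of_nonneg_left huy (by linarith)
          _ ≤ L := hLk
      · intro q hq m _
        rw [mem_singleton] at hq
        rw [hq]
        by_cases hm : m = i
        · rw [hm]
          exact hkd
        · rw [fact_zero (only_one h1 (Ne.symm hm) hi)]
          exact dvd_zero _
      · rw [zero_mul, sum_singleton, fact_zero (only_one h1 (Ne.symm hj) hi), Nat.cast_zero, zero_mul]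
  have hone : ∀ k ∈ Icc 3 K, ∀ i, ((B k i).card : ℝ) ≤ N * ((4 ^ 102 * (y ^ A) ^ 3) ^ (w + 1) * 18) := by
    intro k hk i
    rw [mem_Icc] at hk
    have hk0 : (3 : ℝ) ≤ k := by exact_mod_cast hk.1
    have h1 := fml2_few (k := k) (J := 100) (w := w) (θ := 0) hk.1 (by norm_num)
      (by push_cast; linarith)
      (by
        have h2 : 1 / (k : ℝ) ≤ 1 / 3 := one_div_le_one_div_of_le (by norm_num) hk0
        push_cast
        linarith) (N := N) i (B k i) fun z hz => (mem_filter.1 hz).2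
    refine h1.trans (mul_le_mul_of_nonneg_left (mul_le_mul_of_nonneg_right ?_ (by norm_num)) (Nat.cast_nonneg _))
    apply pow_le_pow_left₀ (Nat.cast_nonneg _)
    apply Kf2_CC hk.1
    exact le_trans (by exact_mod_cast hk.2) hKA
  set G : ℝ := (4 ^ 102 * (y ^ A) ^ 3) ^ (w + 1) with hG
  have hG0 : 0 < G := by positivity
  have hc1 : (W.card : ℝ) ≤ K * (3 * (N * (G * 18))) := by
    have h1 : W.card ≤ ∑ k ∈ Icc 3 K, ∑ i, (B k i).card :=
      (card_le_card hcov).trans (card_biUnion_le.trans (sum_le_sum fun k _ => card_biUnion_le))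
    have h2 : (W.card : ℝ) ≤ ∑ k ∈ Icc 3 K, ∑ i, ((B k i).card : ℝ) := by exact_mod_cast h1
    refine h2.trans ?_
    calc ∑ k ∈ Icc 3 K, ∑ i, ((B k i).card : ℝ) ≤ ∑ k ∈ Icc 3 K, ∑ _i : Fin 3, N * (G * 18) :=
          sum_le_sum fun k hk => sum_le_sum fun i _ => hone k hk i
      _ = ((Icc 3 K).card : ℝ) * (3 * (N * (G * 18))) := by
          rw [sum_const, sum_const, nsmul_eq_mul, nsmul_eq_mul, card_univ, Fintype.card_fin]
          push_cast
          ring
      _ ≤ K * (3 * (N * (G * 18))) := by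
          apply mul_le_mul_of_nonneg_right _ (by positivity)
          have h3 : (Icc 3 K).card ≤ K := by
            rw [Nat.card_Icc]
            omega
          exact_mod_cast h3
  have hfin : 54 * y ^ A * G ≤ (X : ℝ) ^ (u / 2) := by
    rw [← Real.log_le_log_iff (by positivity) (by positivity), Real.log_rpow hX0, ← hy,
      Real.log_mul (by positivity) hG0.ne', Real.log_mul (by norm_num) (by positivity), Real.log_pow, hG,
      Real.log_pow, Real.log_mul (by positivity) (by positivity), Real.log_pow, Real.log_pow, Real.log_pow]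
    have h54 : Real.log 54 ≤ 53 := by
      have := Real.log_le_sub_one_of_pos (show (0 : ℝ) < 54 by norm_num)
      linarith
    have h4 : Real.log 4 ≤ 1.39 := by
      have h5 : Real.log 4 = 2 * Real.log 2 := by
        rw [show (4 : ℝ) = 2 ^ 2 by norm_num, Real.log_pow]
        norm_num
      have h6 := Real.log_two_lt_d9
      linarith
    push_cast
    have h7 : (102 * Real.log 4 + 3 * (A * Real.log y)) ≤ (3 * A + 1) * Real.log y := by
      have : 102 * Real.log 4 ≤ Real.log y := by linarith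
      linarith
    have h8 : ((w : ℝ) + 1) * (102 * Real.log 4 + 3 * (A * Real.log y)) ≤
        (w + 1) * ((3 * A + 1) * Real.log y) := mul_le_mul_of_nonneg_left h7 (by positivity)
    have h9 : ((w : ℝ) + 1) * ((3 * A + 1) * Real.log y) = (3 * A + 1) * (w * Real.log y) + (3 * A + 1) * Real.log y := by
      ring
    have h10 : (3 * (A : ℝ) + 1) * (w * Real.log y) ≤ u / 8 * y := by
      rw [← hcA, mul_assoc]
      exact mul_le_mul_of_nonneg_left hwl hA1.le
    have h11 : (3 * (A : ℝ) + 1) * Real.log y + A * Real.log y = (4 * A + 1) * Real.log y := by ring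
    linarith
  have hNX : (N : ℝ) ≤ (X : ℝ) ^ (1 - u) := Nat.floor_le (by positivity)
  calc (W.card : ℝ) ≤ K * (3 * (N * (G * 18))) := hc1
    _ ≤ y ^ A * (3 * ((X : ℝ) ^ (1 - u) * (G * 18))) := by
        apply mul_le_mul hKA _ (by positivity) hyA
        apply mul_le_mul_of_nonneg_left _ (by norm_num)
        exact mul_le_mul_of_nonneg_right hNX (by positivity)
    _ = (X : ℝ) ^ (1 - u) * (54 * y ^ A * G) := by ring
    _ ≤ (X : ℝ) ^ (1 - u) * (X : ℝ) ^ (u / 2) := mul_le_mul_of_nonneg_left hfin (by positivity)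
    _ = (X : ℝ) ^ (1 - u / 2) := by
        rw [← Real.rpow_add hX0]
        congr 1
        ring

end Pool.MP_a95293_nt.AH
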