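import Pool.Agent.Lib_MP_a95293_ah.Up

/-!
# The lower bound for a nonvanishing Padé form, with some of the primes
-/

set_option autoImplicit false

namespace Pool.MP_a95293_nt.AH

open Finset Pool.MP_a95293_nt.RC Pool.MP_a95293_nt.TP

private theorem Low_log (k : ℕ) (hk : k ≠ 0) :
    ∑ p ∈ k.primeFactors, (k.factorization p : ℝ) * Real.log p = Real.log k := by
  have h1 : ((∏ p ∈ k.primeFactors, p ^ k.factorization p : ℕ) : ℝ) = k := by
    have := Nat.prod_factorization_pow_eq_self hk
    rw [Finsupp.prod, Nat.support_factorization] at this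
    exact_mod_cast this
  rw [← h1]
  push_cast
  rw [Real.log_prod]
  · refine sum_congr rfl fun p _ => ?_
    rw [Real.log_pow]
  · intro p hp
    have : (0 : ℝ) < p := by exact_mod_cast (Nat.prime_of_mem_primeFactors hp).pos
    positivity

private theorem Low_le (k : ℕ) (hk : k ≠ 0) (T : Finset ℕ) :
    ∑ p ∈ T, (k.factorization p : ℝ) * Real.log p ≤ Real.log k := by
  classical
  rw [← Low_log k hk]
  have h0 : ∀ p : ℕ, 0 ≤ (k.factorization p : ℝ) * Real.log p := fun p =>
    mul_nonneg (Nat.cast_nonneg _) (Real.log_natCast_nonneg p)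
  calc ∑ p ∈ T, (k.factorization p : ℝ) * Real.log p ≤
      ∑ p ∈ T ∪ k.primeFactors, (k.factorization p : ℝ) * Real.log p :=
        sum_le_sum_of_subset_of_nonneg subset_union_left fun p _ _ => h0 p
    _ = ∑ p ∈ k.primeFactors, (k.factorization p : ℝ) * Real.log p := by
        symm
        apply sum_subset subset_union_right
        intro p _ hp
        rw [← Nat.support_factorization, Finsupp.notMem_support_iff] at hp
        rw [hp]
        simp

/-- The lower bound for a nonvanishing form. -/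
theorem lam_low {k : ℕ} (hk : 2 ≤ k) {α β x y x' y' : ℤ} {D D' : ℕ} (h : Eq3 k α β x y D)
    (h' : Eq3 k α β x' y' D') (T : Finset ℕ) (hT : ∀ p ∈ T, p.Prime ∧ p ∣ D ∧ p ∣ D') (f : ℕ → ℝ)
    (hf : ∀ p ∈ T, 0 ≤ f p) {L L' : ℝ} (hL0 : 0 ≤ L) (hLL : L ≤ L')
    (h1 : ∀ p ∈ T, f p * L ≤ D.factorization p * Real.log p)
    (h2 : ∀ p ∈ T, f p * L' ≤ D'.factorization p * Real.log p)
    (hcl : ∀ p ∈ T, (p : ℤ) ∣ x * y' - x' * y)
    (hcl2 : 2 ∈ T → (4 : ℤ) ∣ x * y' - x' * y) (n : ℕ)
    (hn : Lam k n (x * y') (x' * y) (α * x ^ k) (β * y ^ k) ≠ 0) :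
    (∑ p ∈ T, f p) * min L' ((2 * n + 1) * L) - (2 * n + 1) * Real.log k ≤
      Real.log |((Lam k n (x * y') (x' * y) (α * x ^ k) (β * y ^ k) : ℤ) : ℝ)| := by
  classical
  have hk1 : 1 ≤ k := by omega
  set M := min L' ((2 * n + 1) * L) with hM
  have hM0 : 0 ≤ M := le_min (by linarith) (by positivity)
  set b : ℕ → ℕ := fun p => min (D.factorization p) (D'.factorization p) - k.factorization p with hb
  set e : ℕ → ℕ := fun p => min (D'.factorization p) ((2 * n + 1) * b p) with he
  set Lm := Lam k n (x * y') (x' * y) (α * x ^ k) (β * y ^ k) with hLm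
  have hdiv : ∀ p ∈ T, (p : ℤ) ^ e p ∣ Lm := by
    intro p hp
    obtain ⟨hpp, hpD, hpD'⟩ := hT p hp
    obtain ⟨_, _, hx, hy⟩ := h.not_dvd hk1 hpp hpD
    obtain ⟨_, _, hx', hy'⟩ := h'.not_dvd hk1 hpp hpD'
    have hpz := Nat.prime_iff_prime_int.1 hpp
    have hs : ¬ (p : ℤ) ∣ x * y' := fun h0 => (hpz.dvd_mul.1 h0).elim hx hy'
    have h3 : (p : ℤ) ^ (b p) ∣ x * y' - x' * y := by
      refine lte2 hpp hk1 hs (hcl p hp) (fun h2' => hcl2 (h2' ▸ hp)) ?_
      refine h.pow_sub h' hk1 hpp hpD ?_ ?_
      · exact (pow_dvd_pow p (min_le_left _ _)).trans (Nat.ordProj_dvd D p)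
      · exact (pow_dvd_pow p (min_le_right _ _)).trans (Nat.ordProj_dvd D' p)
    have h4 : (p : ℤ) ^ (D'.factorization p) ∣ α * x' ^ k - β * y' ^ k := by
      rw [h'.val]
      exact_mod_cast Nat.ordProj_dvd D' p
    exact Lam_dvd hpp k n hk hx' h4 h3
  have hprod : (∏ p ∈ T, (p : ℤ) ^ e p) ∣ Lm := by
    refine Finset.prod_dvd_of_coprime ?_ hdiv
    intro p hp q hq hpq
    have hpp := (hT p hp).1
    have hqq := (hT q hq).1
    have h3 : Nat.Coprime (p ^ e p) (q ^ e q) :=
      Nat.Coprime.pow _ _ ((Nat.coprime_primes hpp hqq).2 hpq)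
    have h4 := Nat.isCoprime_iff_coprime.2 h3
    push_cast at h4
    exact h4
  have hle : (∏ p ∈ T, (p : ℝ) ^ e p) ≤ |(Lm : ℝ)| := by
    have h3 := Int.le_of_dvd (abs_pos.2 hn) ((dvd_abs _ _).2 hprod)
    exact_mod_cast h3
  have hpos : ∀ p ∈ T, (0 : ℝ) < p := fun p hp => by
    exact_mod_cast (hT p hp).1.pos
  have hlog : ∑ p ∈ T, (e p : ℝ) * Real.log p ≤ Real.log |(Lm : ℝ)| := by
    have h3 : Real.log (∏ p ∈ T, (p : ℝ) ^ e p) = ∑ p ∈ T, (e p : ℝ) * Real.log p := by
      rw [Real.log_prod fun p hp => by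
        have := hpos p hp
        positivity]
      refine sum_congr rfl fun p _ => ?_
      rw [Real.log_pow]
    rw [← h3]
    exact Real.log_le_log (prod_pos fun p hp => by
      have := hpos p hp
      positivity) hle
  refine le_trans ?_ hlog
  have hterm : ∀ p ∈ T, f p * M - (2 * n + 1) * ((k.factorization p : ℝ) * Real.log p) ≤
      (e p : ℝ) * Real.log p := by
    intro p hp
    have hlp : 0 ≤ Real.log p := Real.log_natCast_nonneg p
    have hfp := hf p hp
    have hkv : 0 ≤ (k.factorization p : ℝ) * Real.log p := mul_nonneg (Nat.cast_nonneg _) hlp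
    have hML' : f p * M ≤ f p * L' := mul_le_mul_of_nonneg_left (min_le_left _ _) hfp
    have hML : f p * M ≤ f p * ((2 * n + 1) * L) := mul_le_mul_of_nonneg_left (min_le_right _ _) hfp
    rcases min_cases (D'.factorization p) ((2 * n + 1) * b p) with ⟨h3, _⟩ | ⟨h3, _⟩
    · have h4 : e p = D'.factorization p := h3
      rw [h4]
      have h5 := h2 p hp
      have h6 : 0 ≤ (2 * (n : ℝ) + 1) * ((k.factorization p : ℝ) * Real.log p) := by positivity
      linarith
    · have h4 : e p = (2 * n + 1) * b p := h3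
      rw [h4]
      have h5 : ((min (D.factorization p) (D'.factorization p) : ℕ) : ℝ) - k.factorization p ≤ b p := by
        have h6 : min (D.factorization p) (D'.factorization p) ≤ b p + k.factorization p := by
          have h7 : b p = min (D.factorization p) (D'.factorization p) - k.factorization p := rfl
          omega
        have h7 : ((min (D.factorization p) (D'.factorization p) : ℕ) : ℝ) ≤ b p + k.factorization p := by
          exact_mod_cast h6
        linarith
      have h6 : f p * L ≤ ((min (D.factorization p) (D'.factorization p) : ℕ) : ℝ) * Real.log p := by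
        rcases min_cases (D.factorization p) (D'.factorization p) with ⟨h7, _⟩ | ⟨h7, _⟩
        · rw [h7]
          exact h1 p hp
        · rw [h7]
          exact (mul_le_mul_of_nonneg_left hLL hfp).trans (h2 p hp)
      have h7 := mul_le_mul_of_nonneg_right h5 hlp
      rw [sub_mul] at h7
      have h8 : f p * L - (k.factorization p : ℝ) * Real.log p ≤ b p * Real.log p := by linarith
      have h9 := mul_le_mul_of_nonneg_left h8 (show (0 : ℝ) ≤ 2 * n + 1 by positivity)
      push_cast
      calc f p * M - (2 * n + 1) * ((k.factorization p : ℝ) * Real.log p) ≤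
          f p * ((2 * n + 1) * L) - (2 * n + 1) * ((k.factorization p : ℝ) * Real.log p) := by
            linarith
        _ = (2 * n + 1) * (f p * L - (k.factorization p : ℝ) * Real.log p) := by ring
        _ ≤ (2 * n + 1) * (b p * Real.log p) := h9
        _ = _ := by ring
  have hs := sum_le_sum hterm
  rw [sum_sub_distrib, ← sum_mul, ← mul_sum] at hs
  refine le_trans ?_ hs
  have h4 : (2 * (n : ℝ) + 1) * ∑ p ∈ T, (k.factorization p : ℝ) * Real.log p ≤
      (2 * n + 1) * Real.log k :=
    mul_le_mul_of_nonneg_left (Low_le k (by omega) T) (by positivity)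
  linarith

end Pool.MP_a95293_nt.AH
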