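import Pool.Agent.Lib_MP_a95293_ah.Low
import Pool.Agent.Lib_MP_a95293_tp.Cls
import Pool.Agent.Lib_MP_a95293_rc.PadeV

/-!
# Two triples of the same class, with the Padé forms
-/

set_option autoImplicit false

namespace Pool.MP_a95293_nt.AH

open Finset Pool.MP_a95293_nt.RC Pool.MP_a95293_nt.TP

/-- the Padé form of two pairs -/
def LL (k n : ℕ) (e : Bool) (w w' : ℕ × ℕ) : ℤ :=
  Lam k n ((rt k w.1 : ℤ) * (rt k w'.2 : ℤ)) ((rt k w'.1 : ℤ) * (rt k w.2 : ℤ))
    ((al k w.1 : ℤ) * (rt k w.1 : ℤ) ^ k) (be e k w.2 * (rt k w.2 : ℤ) ^ k)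

/-- **The inequality of a nonvanishing form.** -/
theorem lam_two {k : ℕ} (hk : 2 ≤ k) {e : Bool} {w w' : ℕ × ℕ} (h : Gd e w) (h' : Gd e w')
    (hα : al k w.1 = al k w'.1) (hβ : al k w.2 = al k w'.2) (T : Finset ℕ)
    (hT : ∀ p ∈ T, p.Prime ∧ p ∣ Vl e w ∧ p ∣ Vl e w')
    (hcl : ∀ p ∈ T, cls p (rt k w.1) (rt k w.2) = cls p (rt k w'.1) (rt k w'.2)) (f : ℕ → ℝ) (g : ℝ)
    (hf : ∀ p ∈ T, 0 ≤ f p) (hg : 0 ≤ g) (hL0 : 0 < Real.log (Ht e w))
    (hLL : Real.log (Ht e w) ≤ Real.log (Ht e w'))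
    (h1 : ∀ p ∈ T, f p * Real.log (Ht e w) ≤ (Vl e w).factorization p * Real.log p)
    (h2 : ∀ p ∈ T, f p * Real.log (Ht e w') ≤ (Vl e w').factorization p * Real.log p)
    (h3 : g * Real.log (Ht e w) ≤ gg e w) (h4 : g * Real.log (Ht e w') ≤ gg e w') (n : ℕ)
    (hn : LL k n e w w' ≠ 0) :
    (∑ p ∈ T, f p + g) * min (Real.log (Ht e w')) ((2 * n + 1) * Real.log (Ht e w)) ≤
      (2 * n + 1) * Real.log k + (Real.log (Ht e w) + Real.log (Ht e w')) / k +
        n * Real.log (Ht e w) + Real.log (Cn k n) + (k * n + 3) * Real.log 2 := by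
  have hk1 : 1 ≤ k := by omega
  set L := Real.log (Ht e w) with hL
  set L' := Real.log (Ht e w') with hL'
  have hE := h.eq3 k
  have hE' := h'.eq3 k
  rw [← hα] at hE'
  have hβ' : be e k w'.2 = be e k w.2 := by
    unfold be
    rw [hβ]
  rw [hβ'] at hE'
  have hmo : ∀ p ∈ T, (mo p : ℤ) ∣ (rt k w.1 : ℤ) * (rt k w'.2 : ℤ) - (rt k w'.1 : ℤ) * (rt k w.2 : ℤ) := by
    intro p hp
    obtain ⟨hpp, hd, hd'⟩ := hT p hp
    exact cls_eq hpp (hE.not_dvd hk1 hpp hd).2.2.2 (hE'.not_dvd hk1 hpp hd').2.2.2 (hcl p hp)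
  have hmo1 : ∀ p ∈ T, (p : ℤ) ∣ (rt k w.1 : ℤ) * (rt k w'.2 : ℤ) - (rt k w'.1 : ℤ) * (rt k w.2 : ℤ) := by
    intro p hp
    have h5 := hmo p hp
    unfold mo at h5
    by_cases hp2 : p = 2
    · rw [if_pos hp2] at h5
      subst hp2
      exact (by norm_num : ((2 : ℕ) : ℤ) ∣ ((4 : ℕ) : ℤ)).trans h5
    · rw [if_neg hp2] at h5
      exact h5
  have hmo2 : 2 ∈ T → (4 : ℤ) ∣ (rt k w.1 : ℤ) * (rt k w'.2 : ℤ) - (rt k w'.1 : ℤ) * (rt k w.2 : ℤ) := by
    intro h2T
    have h5 := hmo 2 h2T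
    unfold mo at h5
    rw [if_pos rfl] at h5
    exact_mod_cast h5
  unfold LL at hn
  have low := lam_low hk hE hE' T hT f hf hL0.le hLL h1 h2 hmo1 hmo2 n hn
  have hα0 : (al k w.1 : ℤ) ≠ 0 := by exact_mod_cast (al_pos k w.1).ne'
  have hβ0 : be e k w.2 ≠ 0 := by
    have h5 : (al k w.2 : ℤ) ≠ 0 := by exact_mod_cast (al_pos k w.2).ne'
    unfold be
    cases e
    · simpa using h5
    · simpa using h5
  have hu1 : ∀ {z : ℕ × ℕ}, Gd e z → |(((al k z.1 : ℤ) * (rt k z.1 : ℤ) ^ k : ℤ) : ℝ)| ≤ Ht e z := by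
    intro z hz
    have e1 : (al k z.1 : ℤ) * (rt k z.1 : ℤ) ^ k = z.1 := by exact_mod_cast al_mul k z.1 hz.p1.ne'
    rw [e1]
    have : ((z.1 : ℕ) : ℝ) ≤ Ht e z := by exact_mod_cast hz.le1
    push_cast
    rw [abs_of_nonneg (by positivity)]
    exact this
  have hv1 : ∀ {z : ℕ × ℕ}, Gd e z → |((be e k z.2 * (rt k z.2 : ℤ) ^ k : ℤ) : ℝ)| ≤ Ht e z := by
    intro z hz
    have e1 : (al k z.2 : ℤ) * (rt k z.2 : ℤ) ^ k = z.2 := by exact_mod_cast al_mul k z.2 hz.p2.ne'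
    have e2 : |be e k z.2 * (rt k z.2 : ℤ) ^ k| = (z.2 : ℤ) := by
      unfold be
      cases e
      · simp only [Bool.false_eq_true, if_false]
        rw [e1]
        simp
      · simp only [if_true]
        rw [neg_mul, abs_neg, e1]
        simp
    have e3 : |((be e k z.2 * (rt k z.2 : ℤ) ^ k : ℤ) : ℝ)| = (z.2 : ℝ) := by
      rw [← Int.cast_abs, e2]
      simp
    rw [e3]
    exact_mod_cast hz.le2
  have hu' : |(((al k w.1 : ℤ) * (rt k w'.1 : ℤ) ^ k : ℤ) : ℝ)| ≤ Ht e w' := by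
    have := hu1 h'
    rwa [← hα] at this
  have hv' : |((be e k w.2 * (rt k w'.2 : ℤ) ^ k : ℤ) : ℝ)| ≤ Ht e w' := by
    have := hv1 h'
    rwa [hβ'] at this
  have hHt : (0 : ℝ) < Ht e w := by exact_mod_cast h.ht_pos
  set m := min L' ((2 * n + 1) * L) with hm
  have hlog2 : 0 ≤ Real.log 2 := Real.log_nonneg (by norm_num)
  have hfin : Real.log |((Lam k n ((rt k w.1 : ℤ) * (rt k w'.2 : ℤ)) ((rt k w'.1 : ℤ) * (rt k w.2 : ℤ))
    ((al k w.1 : ℤ) * (rt k w.1 : ℤ) ^ k) (be e k w.2 * (rt k w.2 : ℤ) ^ k) : ℤ) : ℝ)| ≤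
      (L + L') / k + n * L + Real.log (Cn k n) + (k * n + 3) * Real.log 2 - g * m := by
    rcases le_or_gt g 0 with hg0 | hg0
    · have hg1 : g = 0 := le_antisymm hg0 hg
      have up1 := lam_up1 hk hE hE' hα0 hβ0 hHt (hu1 h) (hv1 h) hu' hv' n hn
      rw [hg1, zero_mul, sub_zero]
      refine up1.trans ?_
      have h5 : Real.log 2 ≤ (k * n + 3) * Real.log 2 := by
        have h6 : (1 : ℝ) ≤ k * n + 3 := by
          have : (0 : ℝ) ≤ k * n := by positivity
          linarith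
        exact le_mul_of_one_le_left hlog2 h6
      linarith
    · cases e
      · have e1 : ∀ {z : ℕ × ℕ}, 0 < Real.log (Ht false z) → g * Real.log (Ht false z) ≤ gg false z →
            Real.log (Vl false z : ℝ) + g * Real.log (Ht false z) ≤ Real.log (z.2 : ℝ) := by
          intro z hz0 hz
          have h5 : 0 < g * Real.log (Ht false z) := mul_pos hg0 hz0
          unfold gg at hz
          simp only [Bool.false_eq_true, if_false] at hz
          rcases max_cases (0 : ℝ) (Real.log z.2 - Real.log (Vl false z)) with ⟨e5, _⟩ | ⟨e5, _⟩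
          · rw [e5] at hz
            linarith
          · rw [e5] at hz
            linarith
        have e2 := e1 hL0 h3
        have e3 := e1 (lt_of_lt_of_le hL0 hLL) h4
        have e4 : ∀ {z : ℕ × ℕ}, Gd false z → ((be false k z.2 * (rt k z.2 : ℤ) ^ k : ℤ) : ℝ) = (z.2 : ℝ) := by
          intro z hz
          have e5 : (al k z.2 : ℤ) * (rt k z.2 : ℤ) ^ k = z.2 := by exact_mod_cast al_mul k z.2 hz.p2.ne'
          unfold be
          simp only [Bool.false_eq_true, if_false]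
          rw [e5]
          simp
        have e5 : ((be false k w.2 * (rt k w'.2 : ℤ) ^ k : ℤ) : ℝ) = (w'.2 : ℝ) := by
          rw [← hβ']
          exact e4 h'
        have up2 := lam_up2 hk hE hE' (by exact_mod_cast al_pos k w.1)
          (by
            unfold be
            simp only [Bool.false_eq_true, if_false]
            exact_mod_cast al_pos k w.2) h.vl_pos h'.vl_pos (a := g * L) (b := g * L')
          (mul_nonneg hg hL0.le) (mul_nonneg hg (by linarith))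
          (by rw [e4 h]; exact e2) (by rw [e5]; exact e3) n hn
        have up3 := (gap_up hE hE' hk1 hα0 hβ0 (hu1 h) (hv1 h) hu' hv').1
        have up4 : Real.log (((al k w.1 : ℤ) * (rt k w.1 : ℤ) ^ k : ℤ) : ℝ) ≤ L := by
          have e6 : (al k w.1 : ℤ) * (rt k w.1 : ℤ) ^ k = w.1 := by exact_mod_cast al_mul k w.1 h.p1.ne'
          rw [e6]
          apply Real.log_le_log
          · exact_mod_cast h.p1
          · exact_mod_cast h.le1
        have up5 : (n : ℝ) * Real.log (((al k w.1 : ℤ) * (rt k w.1 : ℤ) ^ k : ℤ) : ℝ) ≤ n * L :=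
          mul_le_mul_of_nonneg_left up4 (Nat.cast_nonneg _)
        have up6 : g * m = min ((2 * n + 1) * (g * L)) (g * L') := by
          rw [hm, mul_min_of_nonneg _ _ hg, min_comm]
          congr 1
          ring
        rw [up6]
        linarith
      · exfalso
        have h5 : g * L ≤ 0 := by
          have := h3
          unfold gg at this
          simpa using this
        have h6 : 0 < g * L := mul_pos hg0 hL0
        linarith
  have h5 : (∑ p ∈ T, f p + g) * m = (∑ p ∈ T, f p) * m + g * m := by ring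
  rw [h5]
  linarith

/-- one of two consecutive forms does not vanish -/
theorem LL_ne {k : ℕ} (hk : 2 ≤ k) (n : ℕ) {e : Bool} {w w' : ℕ × ℕ} (h : Gd e w) (h' : Gd e w') :
    LL k n e w w' ≠ 0 ∨ LL k (n + 1) e w w' ≠ 0 := by
  have hE := h.eq3 k
  have hβ0 : be e k w.2 ≠ 0 := by
    have h5 : (al k w.2 : ℤ) ≠ 0 := by exact_mod_cast (al_pos k w.2).ne'
    unfold be
    cases e
    · simpa using h5
    · simpa using h5
  have hpos : ∀ a : ℕ, (0 : ℤ) < rt k a := fun a => by exact_mod_cast rt_pos k a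
  unfold LL
  apply Lam_ne k n hk
  · exact (mul_pos (hpos _) (hpos _)).ne'
  · intro hc
    have h1 := hE.val
    rw [hc, sub_self] at h1
    have h2 := h.vl_pos
    have h3 : (Vl e w : ℤ) = 0 := h1.symm
    omega
  · exact mul_ne_zero hβ0 (pow_ne_zero _ (hpos _).ne')

end Pool.MP_a95293_nt.AH
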