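import Pool.Agent.Lib_MP_a95293_pq.LemS
import Pool.Agent.Lib_MP_a95293_pq.LocQ
import Pool.Agent.Lib_MP_a95293_pq.MemQ

/-!
# One prime, the others being given: exponents without small divisors
-/

set_option autoImplicit false

namespace Pool.MP_a95293_nt.AH

open Finset Pool.MP_a95293_nt.PQ

/-- the number of `p ≤ Y` in given classes -/
private theorem Per_count {Q Y : ℕ} (B : Finset ℕ) :
    ((range (Y + 1)).filter fun p => p % Q ∈ B).card ≤ B.card * (Y / Q + 1) := by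
  classical
  have h1 : ((range (Y + 1)).filter fun p => p % Q ∈ B).card ≤ (B ×ˢ range (Y / Q + 1)).card := by
    refine card_le_card_of_injOn (fun p => (p % Q, p / Q)) ?_ ?_
    · intro p hp
      have hp' := mem_coe.1 hp
      rw [mem_filter, mem_range] at hp'
      refine mem_coe.2 (mem_product.2 ⟨hp'.2, mem_range.2 ?_⟩)
      exact Nat.lt_succ_of_le (Nat.div_le_div_right (by omega))
    · intro p _ q _ h
      have e1 : p % Q = q % Q := congrArg Prod.fst h
      have e2 : p / Q = q / Q := congrArg Prod.snd h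
      rw [← Nat.div_add_mod p Q, ← Nat.div_add_mod q Q, e1, e2]
  rwa [card_product, card_range] at h1

/-- **Given the other primes, few primes `p` are possible.** -/
theorem per2 (n : ℕ) : ∃ K : ℕ, 1 ≤ K ∧ ∀ j : ℕ, K ≤ j → ∃ z₀ : ℕ, ∀ z ≥ z₀, ∀ S : Finset ℕ,
    (∀ q ∈ S, q.Prime) → ∀ Y : ℕ, 1 ≤ Y → S.card + Nat.log 2 Y + 1 ≤ z → ∀ P : Finset ℕ,
    (∀ p ∈ P, p.Prime ∧ p ≤ Y ∧ p ∉ S ∧ ∃ x : Fin n → ℤ, Val S p x ∧
      ∀ D : ℕ, 0 < D → D ≤ z ^ (20 * j ^ 2) → ((∏ i, x i).natAbs.factorization p).gcd D ≤ 2) →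
    (P.card : ℝ) ≤ (z : ℝ) ^ (40 * j ^ 2 * (S.card + 3)) * (Y : ℝ) ^ ((K : ℝ) / j) := by
  classical
  obtain ⟨K, hK, hlem⟩ := lemS
  refine ⟨K * (n + 2) + 1, by omega, fun j hj => ?_⟩
  have hKj : K ≤ j := by
    have : K ≤ K * (n + 2) := Nat.le_mul_of_pos_right _ (by omega)
    omega
  have hj1 : 1 ≤ j := hK.trans hKj
  obtain ⟨z₁, hz₁⟩ := hlem j hKj
  refine ⟨max z₁ (2 ^ n + 2), fun z hz S hS Y hY hSY P hP => ?_⟩
  have hza : z₁ ≤ z := (le_max_left _ _).trans hz
  have hzb : 2 ^ n + 2 ≤ z := (le_max_right _ _).trans hz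
  have hn2 : n < 2 ^ n := Nat.lt_two_pow_self
  have hz2 : 2 ≤ z := by omega
  have hz0 : 0 < z := by omega
  set N := 20 * j ^ 2 with hN
  have hj2 : 1 ≤ j ^ 2 := Nat.one_le_pow _ _ hj1
  have hN20 : 20 ≤ N := by omega
  set t := Nat.log (z ^ N) Y with ht
  have hzN : 1 < z ^ N := Nat.one_lt_pow (by omega) (by omega)
  have htY : (z ^ N) ^ t ≤ Y := Nat.pow_log_le_self _ (by omega)
  have hYt : Y < (z ^ N) ^ (t + 1) := Nat.lt_pow_succ_log_self hzN Y
  have htlog : t ≤ Nat.log 2 Y := Nat.log_anti_left (by norm_num) (by omega)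
  -- the primes for a given divisor
  set LL : ℕ → Finset ℕ := fun D => (Icc 1 (z ^ N)).filter fun l => l.Prime ∧ z ^ (N - 1) < l ∧ D ∣ l - 1 ∧
    l - 1 ≤ D * z ^ (K * j) ∧ l ∉ S with hLL
  have hch : ∀ D : ℕ, ∃ L : Finset ℕ, t ≤ (LL D).card → (L ⊆ LL D ∧ L.card = t) := by
    intro D
    by_cases h : t ≤ (LL D).card
    · obtain ⟨L, h1, h2⟩ := exists_subset_card_eq h
      exact ⟨L, fun _ => ⟨h1, h2⟩⟩
    · exact ⟨∅, fun h' => absurd h' h⟩
  choose L hL using hch
  have hLp : ∀ D, t ≤ (LL D).card → ∀ l ∈ L D, l.Prime ∧ z ^ (N - 1) < l ∧ l ≤ z ^ N ∧ D ∣ l - 1 ∧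
      l - 1 ≤ D * z ^ (K * j) ∧ l ∉ S := by
    intro D hD l hl
    have h1 := (hL D hD).1 hl
    rw [hLL] at h1
    simp only [mem_filter, mem_Icc] at h1
    exact ⟨h1.2.1, h1.2.2.1, h1.1.2, h1.2.2.2.1, h1.2.2.2.2.1, h1.2.2.2.2.2⟩
  set Ds := (Icc 1 (z ^ N)).filter fun D => t ≤ (LL D).card with hDs
  have hcover : P ⊆ Icc 1 (z ^ N) ∪ Ds.biUnion fun D =>
      (range (Y + 1)).filter fun p => p % (∏ l ∈ L D, l) ∈ Bad n (L D) D S (z ^ K) := by
    intro p hp
    obtain ⟨hpp, hpY, hpS, x, hx, hxe⟩ := hP p hp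
    rw [mem_union]
    by_cases hpz : p ≤ z ^ N
    · exact Or.inl (mem_Icc.2 ⟨hpp.one_lt.le, hpz⟩)
    · right
      push Not at hpz
      have hpmem : p ∈ (∏ i, x i).natAbs.primeFactors := by
        rw [hx.2.2.2]
        exact mem_insert_self p S
      obtain ⟨D, Lf, hD0, hDz, -, hLz, hLf⟩ := hz₁ z hza 1 0 one_pos (by norm_num) (by omega)
      have hDg : ((∏ i, x i).natAbs.factorization p).gcd D ≤ z ^ K :=
        (hxe D hD0 hDz).trans ((by omega : 2 ≤ z).trans (Nat.le_self_pow (by omega) z))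
      have hsub : Lf \ S ⊆ LL D := by
        intro l hl
        rw [mem_sdiff] at hl
        obtain ⟨h1, h2, h3, h4, h5⟩ := hLf l hl.1
        rw [hLL]
        simp only [mem_filter, mem_Icc]
        exact ⟨⟨h1.one_lt.le, h3⟩, h1, h2, h4, h5, hl.2⟩
      have hcard : t ≤ (LL D).card := by
        have h1 := card_le_card hsub
        have h2 := le_card_sdiff S Lf
        omega
      rw [mem_biUnion]
      refine ⟨D, ?_, ?_⟩
      · rw [hDs, mem_filter, mem_Icc]
        exact ⟨⟨hD0, hDz⟩, hcard⟩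
      · rw [mem_filter, mem_range]
        refine ⟨by omega, ?_⟩
        have hLD := hLp D hcard
        refine bad_mem (fun l hl => (hLD l hl).1) hD0 (fun l hl => (hLD l hl).2.2.2.1) hpp hpS ?_ ?_ hx hDg
        · intro hpL
          have := (hLD p hpL).2.2.1
          omega
        · rw [disjoint_left]
          intro l hl
          exact (hLD l hl).2.2.2.2.2
  -- one divisor
  set W := z ^ ((K * (n + 2) * j + 1) * t) with hW
  have hone : ∀ D ∈ Ds, ((range (Y + 1)).filter fun p => p % (∏ l ∈ L D, l) ∈ Bad n (L D) D S (z ^ K)).card ≤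
      z ^ (1 + (N + 1) * (S.card + 1) + N) * W := by
    intro D hD
    rw [hDs, mem_filter, mem_Icc] at hD
    obtain ⟨⟨hD1, hD2⟩, hDt⟩ := hD
    have hLD := hLp D hDt
    have hLc := (hL D hDt).2
    refine (Per_count _).trans ?_
    have h1 : (Bad n (L D) D S (z ^ K)).card ≤ 2 ^ n * (n * D) ^ (S.card + 1) *
        ((z ^ (K * j)) ^ (n + 1) * z ^ K) ^ (L D).card :=
      bad_card (fun l hl => (hLD l hl).1) hS (by
        rw [disjoint_left]
        intro l hl
        exact (hLD l hl).2.2.2.2.2) fun l hl => ⟨(hLD l hl).2.2.2.1, Nat.div_le_of_le_mul (hLD l hl).2.2.2.2.1⟩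
    rw [hLc] at h1
    have h2 : Y / (∏ l ∈ L D, l) + 1 ≤ z ^ (N + t) := by
      have h3 : (z ^ (N - 1)) ^ t ≤ ∏ l ∈ L D, l := by
        rw [← hLc]
        exact Finset.pow_card_le_prod _ _ _ fun l hl => (hLD l hl).2.1.le
      have h4 : Y < (∏ l ∈ L D, l) * z ^ (N + t) := by
        refine lt_of_lt_of_le hYt ?_
        calc (z ^ N) ^ (t + 1) = (z ^ (N - 1)) ^ t * z ^ (N + t) := by
              rw [← pow_mul, ← pow_mul, ← pow_add]
              congr 1
              obtain ⟨N', hN'⟩ : ∃ N', N = N' + 1 := ⟨N - 1, by omega⟩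
              rw [hN', Nat.add_sub_cancel]
              ring
          _ ≤ (∏ l ∈ L D, l) * z ^ (N + t) := Nat.mul_le_mul_right _ h3
      exact Nat.succ_le_of_lt (Nat.div_lt_of_lt_mul h4)
    have h3 : (n * D) ^ (S.card + 1) ≤ (z ^ (N + 1)) ^ (S.card + 1) := by
      apply Nat.pow_le_pow_left
      calc n * D ≤ z * z ^ N := Nat.mul_le_mul (by omega) hD2
        _ = z ^ (N + 1) := by rw [pow_succ, mul_comm]
    have h4 : ((z ^ (K * j)) ^ (n + 1) * z ^ K) ^ t ≤ z ^ (K * (n + 2) * j * t) := by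
      rw [← pow_mul, ← pow_add, ← pow_mul]
      apply Nat.pow_le_pow_right hz0
      apply Nat.mul_le_mul_right
      have : K ≤ K * j := Nat.le_mul_of_pos_right _ hj1
      calc K * j * (n + 1) + K ≤ K * j * (n + 1) + K * j := Nat.add_le_add_left this _
        _ = K * (n + 2) * j := by ring
    calc (Bad n (L D) D S (z ^ K)).card * (Y / (∏ l ∈ L D, l) + 1)
        ≤ (z * (z ^ (N + 1)) ^ (S.card + 1) * z ^ (K * (n + 2) * j * t)) * z ^ (N + t) :=
          Nat.mul_le_mul (h1.trans (Nat.mul_le_mul (Nat.mul_le_mul (by omega) h3) h4)) h2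
      _ = z ^ (1 + (N + 1) * (S.card + 1) + N) * W := by
          rw [hW]
          ring
  have hcard : P.card ≤ z ^ N + z ^ N * (z ^ (1 + (N + 1) * (S.card + 1) + N) * W) := by
    refine (card_le_card hcover).trans ((card_union_le _ _).trans (Nat.add_le_add ?_ ?_))
    · rw [Nat.card_Icc, Nat.add_sub_cancel]
    · refine card_biUnion_le.trans ((sum_le_sum hone).trans ?_)
      rw [sum_const, smul_eq_mul]
      refine Nat.mul_le_mul_right _ ((card_filter_le _ _).trans ?_)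
      rw [Nat.card_Icc, Nat.add_sub_cancel]
  have hW1 : 1 ≤ W := Nat.one_le_pow _ _ hz0
  have hcard2 : P.card ≤ z ^ (40 * j ^ 2 * (S.card + 3)) * W := by
    refine hcard.trans ?_
    have h1 : z ^ N ≤ z ^ N * (z ^ (1 + (N + 1) * (S.card + 1) + N) * W) :=
      Nat.le_mul_of_pos_right _ (Nat.mul_pos (pow_pos hz0 _) hW1)
    calc z ^ N + z ^ N * (z ^ (1 + (N + 1) * (S.card + 1) + N) * W)
        ≤ z * (z ^ N * (z ^ (1 + (N + 1) * (S.card + 1) + N) * W)) := by nlinarith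
      _ = z ^ (1 + N + (1 + (N + 1) * (S.card + 1) + N)) * W := by ring
      _ ≤ z ^ (40 * j ^ 2 * (S.card + 3)) * W := by
          refine Nat.mul_le_mul_right _ (Nat.pow_le_pow_right hz0 ?_)
          have e1 : 40 * j ^ 2 = 2 * N := by omega
          rw [e1]
          nlinarith
  -- the power of `Y`
  have hzR : (2 : ℝ) ≤ z := by exact_mod_cast hz2
  have hjR : (1 : ℝ) ≤ j := by exact_mod_cast hj1
  have hYR : (1 : ℝ) ≤ Y := by exact_mod_cast hY
  have hWY : (W : ℝ) ≤ (Y : ℝ) ^ (((K * (n + 2) + 1 : ℕ) : ℝ) / j) := by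
    have h1 : ((z : ℝ) ^ (N * t)) ≤ Y := by
      rw [pow_mul]
      exact_mod_cast htY
    have hNR : (0 : ℝ) < N := by
      have : 0 < N := by omega
      exact_mod_cast this
    have h2 : (W : ℝ) = ((z : ℝ) ^ (N * t)) ^ (((K * (n + 2) * j + 1 : ℕ) : ℝ) / N) := by
      rw [hW]
      push_cast
      rw [← Real.rpow_natCast, ← Real.rpow_natCast, ← Real.rpow_mul (by linarith)]
      congr 1
      push_cast
      field_simp
    rw [h2]
    refine (Real.rpow_le_rpow (by positivity) h1 (by positivity)).trans ?_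
    apply Real.rpow_le_rpow_of_exponent_le hYR
    rw [div_le_div_iff₀ hNR (by linarith)]
    have e1 : (N : ℝ) = 20 * (j : ℝ) ^ 2 := by
      rw [hN]
      push_cast
      ring
    rw [e1]
    push_cast
    have e2 : (0 : ℝ) ≤ K * (n + 2) := by positivity
    have e3 : (K * (n + 2) * j + 1 : ℝ) ≤ (K * (n + 2) + 1) * j := by nlinarith
    have e4 : (0 : ℝ) ≤ (K * (n + 2) + 1) * j * j := by positivity
    nlinarith
  calc (P.card : ℝ) ≤ ((z ^ (40 * j ^ 2 * (S.card + 3)) * W : ℕ) : ℝ) := by exact_mod_cast hcard2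
    _ = (z : ℝ) ^ (40 * j ^ 2 * (S.card + 3)) * W := by push_cast; ring
    _ ≤ _ := mul_le_mul_of_nonneg_left hWY (by positivity)

end Pool.MP_a95293_nt.AH
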