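import Pool.Agent.Lib_MP_a95293_rc.PadeD

/-!
# The archimedean estimate for the Padé form
-/

set_option autoImplicit false

namespace Pool.MP_a95293_nt.AH

open Finset Pool.MP_a95293_nt.RC

/-- the sum of the coefficients -/
noncomputable def Cn (k n : ℕ) : ℝ := ∑ i ∈ range (n + 1), (cf k n i : ℝ)

theorem Cn_le (k n : ℕ) (hk : 2 ≤ k) : Cn k n ≤ (n + 1) * (4 * k * (k + 1)) ^ n := by
  unfold Cn
  calc ∑ i ∈ range (n + 1), (cf k n i : ℝ) ≤ ∑ _i ∈ range (n + 1), ((4 * k * (k + 1)) ^ n : ℝ) := by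
        refine sum_le_sum fun i hi => ?_
        have h := cf_le k n i hk (by
          rw [mem_range] at hi
          omega)
        exact_mod_cast h
    _ = (n + 1) * (4 * k * (k + 1)) ^ n := by
        rw [sum_const, card_range, nsmul_eq_mul]
        push_cast
        ring

theorem Cn_pos (k n : ℕ) (hk : 2 ≤ k) : 0 < Cn k n := by
  unfold Cn
  apply sum_pos
  · intro i hi
    rw [mem_range] at hi
    exact_mod_cast cf_pos k n i hk (by omega)
  · exact ⟨0, mem_range.2 (by omega)⟩

theorem Cn_refl (k n : ℕ) : ∑ i ∈ range (n + 1), (cf k n (n - i) : ℝ) = Cn k n := by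
  unfold Cn
  exact sum_range_reflect (fun i => (cf k n i : ℝ)) (n + 1)

private theorem Re_choose (a M : ℕ) : ∑ m ∈ range M, (a.choose m : ℝ) ≤ 2 ^ a := by
  have h1 : ∑ m ∈ range M, a.choose m ≤ 2 ^ a := by
    rw [← Nat.sum_range_choose a]
    calc ∑ m ∈ range M, a.choose m ≤ ∑ m ∈ range (max M (a + 1)), a.choose m := by
          apply sum_le_sum_of_subset
          exact range_subset_range.2 (le_max_left _ _)
      _ = ∑ m ∈ range (a + 1), a.choose m := by
          symm
          apply sum_subset (range_subset_range.2 (le_max_right _ _))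
          intro m _ hm
          rw [mem_range, not_lt] at hm
          exact Nat.choose_eq_zero_of_lt (by omega)
  exact_mod_cast h1

/-- **The Padé remainder at the real place.** -/
theorem pad_real (k n : ℕ) (hk : 2 ≤ k) {U V r : ℝ} (hV : 0 < V) (hUV : V ≤ U) (hr : U - V ≤ r * V)
    (hr0 : 0 ≤ r) (hr1 : r ≤ 1) :
    |V * ∑ i ∈ range (n + 1), (cf k n i : ℝ) * (U ^ k) ^ i * (V ^ k) ^ (n - i) -
      U * ∑ i ∈ range (n + 1), (cf k n i : ℝ) * (V ^ k) ^ i * (U ^ k) ^ (n - i)| ≤
      2 ^ (k * n + 2) * Cn k n * r ^ (2 * n + 1) * (V * (V ^ k) ^ n) := by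
  set d : ℕ → ℤ := fun m => ∑ i ∈ range (n + 1), (cf k n i : ℤ) * ((k * i).choose m : ℤ) -
    ∑ i ∈ range (n + 1), (cf k n (n - i) : ℤ) * ((k * i + 1).choose m : ℤ) with hd
  have hle : ∀ i ∈ range (n + 1), k * i + 1 ≤ k * n + 1 := fun i hi => by
    rw [mem_range] at hi
    have := Nat.mul_le_mul_left k (show i ≤ n by omega)
    omega
  have e1 : V * ∑ i ∈ range (n + 1), (cf k n i : ℝ) * (U ^ k) ^ i * (V ^ k) ^ (n - i) =
      ∑ m ∈ range (k * n + 1 + 1),
        ((∑ i ∈ range (n + 1), (cf k n i : ℤ) * ((k * i).choose m : ℤ) : ℤ) : ℝ) *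
          ((U - V) ^ m * V ^ (k * n + 1 - m)) := by
    have e0 : ∀ i ∈ range (n + 1), V * ((cf k n i : ℝ) * (U ^ k) ^ i * (V ^ k) ^ (n - i)) =
        (cf k n i : ℝ) * (U ^ (k * i) * V ^ (k * n + 1 - k * i)) := by
      intro i hi
      rw [mem_range] at hi
      have h1 := Nat.mul_le_mul_left k (show i ≤ n by omega)
      have h2 : V ^ (k * n + 1 - k * i) = V * (V ^ k) ^ (n - i) := by
        rw [← pow_mul, ← pow_succ']
        congr 1
        rw [Nat.mul_sub]
        omega
      rw [h2, pow_mul]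
      ring
    rw [mul_sum, sum_congr rfl e0]
    rw [sum_congr rfl fun i hi => by
      rw [PadeD_bin U V (show k * i ≤ k * n + 1 by
        have := hle i hi
        omega), mul_sum]]
    rw [sum_comm]
    refine sum_congr rfl fun m _ => ?_
    push_cast
    rw [sum_mul]
    refine sum_congr rfl fun i _ => ?_
    ring
  have e2 : U * ∑ i ∈ range (n + 1), (cf k n i : ℝ) * (V ^ k) ^ i * (U ^ k) ^ (n - i) =
      ∑ m ∈ range (k * n + 1 + 1),
        ((∑ i ∈ range (n + 1), (cf k n (n - i) : ℤ) * ((k * i + 1).choose m : ℤ) : ℤ) : ℝ) *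
          ((U - V) ^ m * V ^ (k * n + 1 - m)) := by
    have hr := sum_range_reflect (fun i => (cf k n i : ℝ) * (V ^ k) ^ i * (U ^ k) ^ (n - i)) (n + 1)
    have e0 : ∀ i ∈ range (n + 1), U * ((cf k n (n + 1 - 1 - i) : ℝ) * (V ^ k) ^ (n + 1 - 1 - i) *
        (U ^ k) ^ (n - (n + 1 - 1 - i))) =
        (cf k n (n - i) : ℝ) * (U ^ (k * i + 1) * V ^ (k * n + 1 - (k * i + 1))) := by
      intro i hi
      rw [mem_range] at hi
      have h1 := Nat.mul_le_mul_left k (show i ≤ n by omega)
      have h2 : V ^ (k * n + 1 - (k * i + 1)) = (V ^ k) ^ (n - i) := by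
        rw [← pow_mul]
        congr 1
        rw [Nat.mul_sub]
        omega
      have h3 : n + 1 - 1 - i = n - i := by omega
      have h4 : n - (n - i) = i := by omega
      have h5 : U ^ (k * i + 1) = (U ^ k) ^ i * U := by rw [pow_succ, pow_mul]
      rw [h3, h4, h2, h5]
      ring
    rw [← hr, mul_sum, sum_congr rfl e0]
    rw [sum_congr rfl fun i hi => by
      rw [PadeD_bin U V (hle i hi), mul_sum]]
    rw [sum_comm]
    refine sum_congr rfl fun m _ => ?_
    push_cast
    rw [sum_mul]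
    refine sum_congr rfl fun i _ => ?_
    ring
  have hdm : ∀ m ∈ range (k * n + 1 + 1), |(d m : ℝ) * ((U - V) ^ m * V ^ (k * n + 1 - m))| ≤
      (∑ i ∈ range (n + 1), ((cf k n i : ℝ) * ((k * i).choose m : ℝ) +
        (cf k n (n - i) : ℝ) * ((k * i + 1).choose m : ℝ))) * (r ^ (2 * n + 1) * V ^ (k * n + 1)) := by
    intro m hm
    rw [mem_range] at hm
    have hS : 0 ≤ ∑ i ∈ range (n + 1), ((cf k n i : ℝ) * ((k * i).choose m : ℝ) +
        (cf k n (n - i) : ℝ) * ((k * i + 1).choose m : ℝ)) := sum_nonneg fun i _ => by positivity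
    by_cases hmn : m ≤ 2 * n
    · have h0 : d m = 0 := by
        simp only [hd]
        rw [lag_choose k n m hk hmn, sub_self]
      rw [h0, Int.cast_zero, zero_mul, abs_zero]
      positivity
    · have h1 : |(d m : ℝ)| ≤ ∑ i ∈ range (n + 1), ((cf k n i : ℝ) * ((k * i).choose m : ℝ) +
          (cf k n (n - i) : ℝ) * ((k * i + 1).choose m : ℝ)) := by
        simp only [hd]
        push_cast
        refine (abs_sub _ _).trans ?_
        rw [sum_add_distrib, abs_of_nonneg (sum_nonneg fun i _ => by positivity),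
          abs_of_nonneg (sum_nonneg fun i _ => by positivity)]
      have h2 : |(U - V) ^ m * V ^ (k * n + 1 - m)| ≤ r ^ (2 * n + 1) * V ^ (k * n + 1) := by
        rw [abs_of_nonneg (mul_nonneg (pow_nonneg (by linarith) _) (pow_nonneg hV.le _))]
        calc (U - V) ^ m * V ^ (k * n + 1 - m) ≤ (r * V) ^ m * V ^ (k * n + 1 - m) :=
              mul_le_mul_of_nonneg_right (pow_le_pow_left₀ (by linarith) hr m) (pow_nonneg hV.le _)
          _ = r ^ m * V ^ (k * n + 1) := by
              rw [mul_pow, mul_assoc, ← pow_add]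
              congr 2
              omega
          _ ≤ r ^ (2 * n + 1) * V ^ (k * n + 1) := by
              apply mul_le_mul_of_nonneg_right _ (pow_nonneg hV.le _)
              exact pow_le_pow_of_le_one hr0 hr1 (by omega)
      rw [abs_mul]
      exact mul_le_mul h1 h2 (abs_nonneg _) hS
  rw [e1, e2, ← sum_sub_distrib]
  have e3 : ∀ m ∈ range (k * n + 1 + 1),
      ((∑ i ∈ range (n + 1), (cf k n i : ℤ) * ((k * i).choose m : ℤ) : ℤ) : ℝ) *
          ((U - V) ^ m * V ^ (k * n + 1 - m)) -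
        ((∑ i ∈ range (n + 1), (cf k n (n - i) : ℤ) * ((k * i + 1).choose m : ℤ) : ℤ) : ℝ) *
          ((U - V) ^ m * V ^ (k * n + 1 - m)) = (d m : ℝ) * ((U - V) ^ m * V ^ (k * n + 1 - m)) := by
    intro m _
    simp only [hd]
    push_cast
    ring
  rw [sum_congr rfl e3]
  refine (abs_sum_le_sum_abs _ _).trans ((sum_le_sum hdm).trans ?_)
  rw [← sum_mul, sum_comm]
  have h4 : ∑ i ∈ range (n + 1), ∑ m ∈ range (k * n + 1 + 1), ((cf k n i : ℝ) * ((k * i).choose m : ℝ) +
        (cf k n (n - i) : ℝ) * ((k * i + 1).choose m : ℝ)) ≤ 2 ^ (k * n + 2) * Cn k n := by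
    calc ∑ i ∈ range (n + 1), ∑ m ∈ range (k * n + 1 + 1), ((cf k n i : ℝ) * ((k * i).choose m : ℝ) +
          (cf k n (n - i) : ℝ) * ((k * i + 1).choose m : ℝ)) ≤
        ∑ i ∈ range (n + 1), ((cf k n i : ℝ) * 2 ^ (k * n) + (cf k n (n - i) : ℝ) * 2 ^ (k * n + 1)) := by
          refine sum_le_sum fun i hi => ?_
          rw [sum_add_distrib, ← mul_sum, ← mul_sum]
          have h5 := hle i hi
          have h6 : (2 : ℝ) ^ (k * i) ≤ 2 ^ (k * n) := pow_le_pow_right₀ (by norm_num) (by omega)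
          have h7 : (2 : ℝ) ^ (k * i + 1) ≤ 2 ^ (k * n + 1) := pow_le_pow_right₀ (by norm_num) h5
          exact add_le_add
            (mul_le_mul_of_nonneg_left ((Re_choose _ _).trans h6) (Nat.cast_nonneg _))
            (mul_le_mul_of_nonneg_left ((Re_choose _ _).trans h7) (Nat.cast_nonneg _))
      _ = (2 ^ (k * n) + 2 ^ (k * n + 1)) * Cn k n := by
          rw [sum_add_distrib, ← sum_mul, ← sum_mul, Cn_refl]
          unfold Cn
          ring
      _ ≤ 2 ^ (k * n + 2) * Cn k n := by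
          apply mul_le_mul_of_nonneg_right _ (Cn_pos k n hk).le
          have : (0 : ℝ) < 2 ^ (k * n) := by positivity
          rw [pow_succ, pow_add]
          linarith
  have hV2 : V * (V ^ k) ^ n = V ^ (k * n + 1) := by
    rw [← pow_mul, ← pow_succ']
  rw [hV2, mul_assoc]
  exact mul_le_mul_of_nonneg_right h4 (by positivity)

end Pool.MP_a95293_nt.AH
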