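import Pool.Agent.Lib_MP_a95293_ah.Tot
import Pool.Agent.Lib_MP_a95293_te.TopE

/-!
# Theorem Q for n-tuples; triples without any condition on the height
-/

set_option autoImplicit false

namespace Pool.MP_a95293_nt.AH

open Finset Pool.MP_a95293_nt.RC Pool.MP_a95293_nt.PQ Pool.MP_a95293_nt.TN Pool.MP_a95293_nt.TE

/-- the tuples; there is no condition on the height of triples -/
def Tpl (n B X : ℕ) : Set (Fin n → ℤ) :=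
  {x | Adm x ∧ radZ (∏ j, x j) ≤ X ∧ (4 ≤ n → (htn x : ℝ) ≤ Real.exp (Real.exp (Real.log X ^ B)) ∧
    (Real.exp (Real.log X ^ B) < htn x → ∀ i j, i ≠ j → IsCoprime (x i) (x j)))}

theorem tpl_three (B X : ℕ) : Tpl 3 B X = {x : Fin 3 → ℤ | Adm x ∧ radZ (∏ i, x i) ≤ X} := by
  ext x
  constructor
  · rintro ⟨h1, h2, -⟩
    exact ⟨h1, h2⟩
  · rintro ⟨h1, h2⟩
    exact ⟨h1, h2, fun h => absurd h (by norm_num)⟩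

theorem tpl_four {n : ℕ} (hn : 4 ≤ n) (B X : ℕ) : Tpl n B X = TplE n B X := by
  ext x
  constructor
  · rintro ⟨h1, h2, h3⟩
    exact ⟨h1, h2, (h3 hn).1, fun _ => (h3 hn).2⟩
  · rintro ⟨h1, h2, h3, h4⟩
    exact ⟨h1, h2, fun _ => ⟨h3, h4 hn⟩⟩

theorem tplE_of_tpl {n B X : ℕ} {x : Fin n → ℤ} (hx : x ∈ Tpl n B X)
    (hH : (htn x : ℝ) ≤ Real.exp (Real.exp (Real.log X ^ B))) : x ∈ TplE n B X :=
  ⟨hx.1, hx.2.1, hH, fun h => (hx.2.2 h).2⟩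

/-- the pairwise coprime ones of bounded height -/
def TplC (n B X : ℕ) : Set (Fin n → ℤ) :=
  {x | x ∈ Tpl n B X ∧ (htn x : ℝ) ≤ Real.exp (Real.exp (Real.log X ^ B)) ∧ ∀ i j, i ≠ j → IsCoprime (x i) (x j)}

/-- **Theorem Q.** -/
theorem top (n B : ℕ) (hn : 3 ≤ n) :
    (∃ δ : ℝ, 0 < δ ∧ ∃ X₀ : ℕ, ∀ X : ℕ, X₀ ≤ X → (Tpl n B X).Finite ∧ ((Tpl n B X).ncard : ℝ) ≤ (X : ℝ) ^ (1 - δ)) ∧
    (∀ ε : ℝ, 0 < ε → ∃ X₀ : ℕ, ∀ X : ℕ, X₀ ≤ X →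
      (({x | x ∈ TplC n B X ∧ ¬ Shape ((X : ℝ) ^ ε) x} : Set (Fin n → ℤ)).ncard : ℝ) ≤
        (X : ℝ) ^ (1 - ε / (4 * n))) ∧
    ∀ η : ℝ, 0 < η → ∃ ε : ℝ, 0 < ε ∧ ∃ X₀ : ℕ, ∀ X : ℕ, X₀ ≤ X →
      (({x | x ∈ TplC n B X ∧ Shape ((X : ℝ) ^ ε) x} : Set (Fin n → ℤ)).ncard : ℝ) ≤
        (X : ℝ) ^ (1 - 1 / (n : ℝ) + η) := by
  obtain ⟨h1, h2, h3⟩ := topE n B hn
  refine ⟨?_, fun ε hε => ?_, fun η hη => ?_⟩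
  · rcases Nat.lt_or_ge n 4 with h4 | h4
    · have hn3 : n = 3 := by omega
      subst hn3
      obtain ⟨δ, hδ, X₀, hX₀⟩ := triples_total
      refine ⟨δ, hδ, X₀, fun X hX => ?_⟩
      rw [tpl_three]
      exact hX₀ X hX
    · obtain ⟨δ, hδ, X₀, hX₀⟩ := h1
      refine ⟨δ, hδ, X₀, fun X hX => ?_⟩
      rw [tpl_four h4]
      exact hX₀ X hX
  · obtain ⟨X₀, hX₀⟩ := h2 ε hε
    refine ⟨X₀, fun X hX => le_trans ?_ (hX₀ X hX)⟩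
    have hfin : ({x | x ∈ TplE n B X ∧ (∀ i j, i ≠ j → IsCoprime (x i) (x j)) ∧ ¬ Shape ((X : ℝ) ^ ε) x} :
        Set (Fin n → ℤ)).Finite := (tplE_finite n B X).subset fun _ hx => hx.1
    have hsub : ({x | x ∈ TplC n B X ∧ ¬ Shape ((X : ℝ) ^ ε) x} : Set (Fin n → ℤ)) ⊆
        {x | x ∈ TplE n B X ∧ (∀ i j, i ≠ j → IsCoprime (x i) (x j)) ∧ ¬ Shape ((X : ℝ) ^ ε) x} :=
      fun x hx => ⟨tplE_of_tpl hx.1.1 hx.1.2.1, hx.1.2.2, hx.2⟩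
    exact_mod_cast Set.ncard_le_ncard hsub hfin
  · obtain ⟨ε, hε, X₀, hX₀⟩ := h3 η hη
    refine ⟨ε, hε, X₀, fun X hX => le_trans ?_ (hX₀ X hX)⟩
    have hfin : ({x | x ∈ TplE n B X ∧ (∀ i j, i ≠ j → IsCoprime (x i) (x j)) ∧ Shape ((X : ℝ) ^ ε) x} :
        Set (Fin n → ℤ)).Finite := (tplE_finite n B X).subset fun _ hx => hx.1
    have hsub : ({x | x ∈ TplC n B X ∧ Shape ((X : ℝ) ^ ε) x} : Set (Fin n → ℤ)) ⊆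
        {x | x ∈ TplE n B X ∧ (∀ i j, i ≠ j → IsCoprime (x i) (x j)) ∧ Shape ((X : ℝ) ^ ε) x} :=
      fun x hx => ⟨tplE_of_tpl hx.1.1 hx.1.2.1, hx.1.2.2, hx.2⟩
    exact_mod_cast Set.ncard_le_ncard hsub hfin

end Pool.MP_a95293_nt.AH
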