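import Pool.Agent.Lib_MP_a95293_ah.Thr2
import Pool.Agent.Lib_MP_a95293_ah.Exc2
import Pool.Agent.Lib_MP_a95293_ah.Fib2
import Pool.Agent.Lib_MP_a95293_ah.Kf2

/-!
# The number of pairs with radical at most `X`, at all heights
-/

set_option autoImplicit false

namespace Pool.MP_a95293_nt.AH

open Finset Pool.MP_a95293_nt.RC Pool.MP_a95293_nt.TP Pool.MP_a95293_nt.PQ

/-- the logarithm of the product -/
theorem log_pr3_le {z : ℕ × ℕ} (hz : Prm z) : Real.log (pr3 z) ≤ 3 * Real.log (z.1 + z.2 : ℕ) := by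
  have h1 := hz.1
  have h2 := hz.2.1
  have h3 : pr3 z ≤ (z.1 + z.2) ^ 3 := by
    unfold pr3
    calc z.1 * z.2 * (z.1 + z.2) ≤ (z.1 + z.2) * (z.1 + z.2) * (z.1 + z.2) :=
          Nat.mul_le_mul_right _ (Nat.mul_le_mul (by omega) (by omega))
      _ = (z.1 + z.2) ^ 3 := by ring
  have h4 : 0 < pr3 z := by
    unfold pr3
    positivity
  have h5 : Real.log (pr3 z) ≤ Real.log (((z.1 + z.2 : ℕ) : ℝ) ^ 3) :=
    Real.log_le_log (by exact_mod_cast h4) (by exact_mod_cast h3)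
  rw [Real.log_pow] at h5
  exact_mod_cast h5

/-- **A large prime.** -/
theorem large_prime {X : ℕ} {z : ℕ × ℕ} (hz : Prm z) (hX : (1 : ℝ) ≤ X) (hR : (X : ℝ) ^ (1 / 2 : ℝ) < rd (pr3 z))
    (hL : 0 < Real.log (z.1 + z.2 : ℕ)) (hb : ∏ p ∈ bad (1 / 12) 0 z, (p : ℝ) ≤ (X : ℝ) ^ (1 / 20 : ℝ)) :
    ∃ p ∈ (pr3 z).primeFactors, (X : ℝ) ^ (1 / 80 : ℝ) ≤ p := by
  classical
  by_contra hcon
  push Not at hcon
  have hX0 : (0 : ℝ) < X := by linarith
  set L := Real.log (z.1 + z.2 : ℕ) with hLd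
  set G := (pr3 z).primeFactors \ bad (1 / 12) 0 z with hG
  have hbs : bad (1 / 12) 0 z ⊆ (pr3 z).primeFactors := by
    unfold bad
    exact filter_subset _ _
  have hgood : ∀ p ∈ G, 1 / 12 * L < ((pr3 z).factorization p : ℝ) * Real.log p := by
    intro p hp
    rw [hG, mem_sdiff] at hp
    by_contra hc
    apply hp.2
    unfold bad
    rw [mem_filter]
    exact ⟨hp.1, Or.inl (not_lt.1 hc)⟩
  have hcard : G.card ≤ 36 := by
    have h1 : (G.card : ℝ) * (1 / 12 * L) ≤ 3 * L := by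
      calc (G.card : ℝ) * (1 / 12 * L) = ∑ p ∈ G, 1 / 12 * L := by rw [sum_const, nsmul_eq_mul]
        _ ≤ ∑ p ∈ G, ((pr3 z).factorization p : ℝ) * Real.log p := sum_le_sum fun p hp => (hgood p hp).le
        _ ≤ Real.log (pr3 z) := by
            apply sum_fac_le
            have h1 := hz.1
            have h2 := hz.2.1
            unfold pr3
            positivity
        _ ≤ 3 * L := log_pr3_le hz
    have h2 : (G.card : ℝ) ≤ 36 := by
      refine le_of_mul_le_mul_right ?_ hL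
      linarith
    exact_mod_cast h2
  have hup : ∏ p ∈ G, (p : ℝ) ≤ (X : ℝ) ^ (9 / 20 : ℝ) := by
    have h1 : (1 : ℝ) ≤ (X : ℝ) ^ (1 / 80 : ℝ) := Real.one_le_rpow hX (by norm_num)
    calc ∏ p ∈ G, (p : ℝ) ≤ ∏ _p ∈ G, (X : ℝ) ^ (1 / 80 : ℝ) :=
          prod_le_prod (fun p _ => Nat.cast_nonneg p) fun p hp => (hcon p (sdiff_subset hp)).le
      _ = ((X : ℝ) ^ (1 / 80 : ℝ)) ^ G.card := by rw [prod_const]
      _ ≤ ((X : ℝ) ^ (1 / 80 : ℝ)) ^ 36 := pow_le_pow_right₀ h1 hcard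
      _ = (X : ℝ) ^ (9 / 20 : ℝ) := by
          rw [← Real.rpow_natCast, ← Real.rpow_mul hX0.le]
          norm_num
  have hlow : (rd (pr3 z) : ℝ) = (∏ p ∈ G, (p : ℝ)) * ∏ p ∈ bad (1 / 12) 0 z, (p : ℝ) := by
    have h1 : rd (pr3 z) = (∏ p ∈ G, p) * ∏ p ∈ bad (1 / 12) 0 z, p := (prod_sdiff hbs).symm
    rw [h1]
    push_cast
    rfl
  have h1 : (rd (pr3 z) : ℝ) ≤ (X : ℝ) ^ (9 / 20 : ℝ) * (X : ℝ) ^ (1 / 20 : ℝ) := by
    rw [hlow]
    exact mul_le_mul hup hb (prod_nonneg fun p _ => Nat.cast_nonneg p) (by positivity)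
  rw [← Real.rpow_add hX0] at h1
  have h2 : (9 / 20 + 1 / 20 : ℝ) = 1 / 2 := by norm_num
  rw [h2] at h1
  linarith

/-- **The number of pairs with radical at most `X`.** -/
theorem pairs_total : ∃ δ : ℝ, 0 < δ ∧ ∃ X₀ : ℕ, ∀ X ≥ X₀, ∀ W : Finset (ℕ × ℕ),
    (∀ z ∈ W, Prm z ∧ rd (pr3 z) ≤ X) → (W.card : ℝ) ≤ (X : ℝ) ^ (1 - δ) := by
  classical
  obtain ⟨A, hA, c₁, hc₁, X₁, hX₁⟩ := thR2 3 (show (0 : ℝ) < 1 / 160 by norm_num)
  obtain ⟨c₂, hc₂, X₂, hX₂⟩ := kf2 A (show (0 : ℝ) < 1 / 80 by norm_num)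
  set c := min c₁ c₂ with hc
  have hc0 : 0 < c := lt_min hc₁ hc₂
  obtain ⟨X₃, hX₃⟩ := many_omega hc0
  set δ := min (c / 16) (1 / 1000) / 2 with hδ
  have hδ0 : 0 < δ := by
    rw [hδ]
    have : 0 < min (c / 16) (1 / 1000 : ℝ) := lt_min (by positivity) (by norm_num)
    linarith
  have hδc : 2 * δ ≤ c / 16 := by
    rw [hδ]
    linarith [min_le_left (c / 16) (1 / 1000 : ℝ)]
  have hδm : 2 * δ ≤ 1 / 1000 := by
    rw [hδ]
    linarith [min_le_right (c / 16) (1 / 1000 : ℝ)]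
  obtain ⟨X₄, hX₄⟩ := fib_small (show (0 : ℝ) < 2 * δ by linarith)
  obtain ⟨X₅, hX₅⟩ := exc2
  set M := ⌈Real.exp 144000⌉₊ with hM
  have e1 : ∀ᶠ x : ℝ in Filter.atTop, (6 : ℝ) ≤ x ^ δ := (tendsto_rpow_atTop hδ0).eventually_ge_atTop _
  have e2 : ∀ᶠ x : ℝ in Filter.atTop, ((M * M : ℕ) : ℝ) ≤ x ^ (1 / 2 : ℝ) :=
    (tendsto_rpow_atTop (by norm_num)).eventually_ge_atTop _
  obtain ⟨X₆, hX₆⟩ := Filter.eventually_atTop.1 (tendsto_natCast_atTop_atTop.eventually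
    ((e1.and e2).and (Filter.eventually_ge_atTop (3 : ℝ))))
  refine ⟨δ, hδ0, max (max (max X₁ X₂) (max X₃ X₄)) (max X₅ X₆), fun X hX W hW => ?_⟩
  have k1 : X₁ ≤ X := ((le_max_left _ _).trans ((le_max_left _ _).trans (le_max_left _ _))).trans hX
  have k2 : X₂ ≤ X := ((le_max_right _ _).trans ((le_max_left _ _).trans (le_max_left _ _))).trans hX
  have k3 : X₃ ≤ X := ((le_max_left _ _).trans ((le_max_right _ _).trans (le_max_left _ _))).trans hX
  have k4 : X₄ ≤ X := ((le_max_right _ _).trans ((le_max_right _ _).trans (le_max_left _ _))).trans hX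
  have k5 : X₅ ≤ X := ((le_max_left _ _).trans (le_max_right _ _)).trans hX
  obtain ⟨⟨g1, g2⟩, g3⟩ := hX₆ X (((le_max_right _ _).trans (le_max_right _ _)).trans hX)
  have hX0 : (0 : ℝ) < X := by linarith
  have hX1 : (1 : ℝ) ≤ X := by linarith
  have hll : 0 ≤ Real.log (Real.log X) := by
    apply Real.log_nonneg
    rw [Real.le_log_iff_exp_le hX0]
    have := Real.exp_one_lt_d9
    linarith
  have hlX : 0 ≤ Real.log X := Real.log_nonneg hX1
  -- the parts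
  set Wa := W.filter fun z => (rd (pr3 z) : ℝ) ≤ (X : ℝ) ^ (1 / 2 : ℝ) with hWa
  set Wb := W.filter fun z => Real.log (z.1 + z.2 : ℕ) < 144000 with hWb
  set Wc := W.filter fun z => 144000 ≤ Real.log (z.1 + z.2 : ℕ) ∧
    (X : ℝ) ^ (1 / 20 : ℝ) < ∏ p ∈ bad (1 / 12) 0 z, (p : ℝ) with hWc
  set Wd := W.filter fun z => c * Real.log X < ((pr3 z).primeFactors.card : ℝ) * Real.log (Real.log X) with hWd
  set We := W.filter fun z => ((pr3 z).primeFactors.card : ℝ) * Real.log (Real.log X) ≤ c * Real.log X ∧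
    ∃ p ∈ (pr3 z).primeFactors, (X : ℝ) ^ (1 / 80 : ℝ) ≤ p ∧
      ∃ k : ℕ, 3 ≤ k ∧ (k : ℝ) ≤ Real.log X ^ A ∧ k ∣ (pr3 z).factorization p with hWe
  set Wf := W.filter fun z => ((pr3 z).primeFactors.card : ℝ) * Real.log (Real.log X) ≤ c * Real.log X ∧
    ∃ p ∈ (pr3 z).primeFactors, (X : ℝ) ^ (1 / 80 : ℝ) ≤ p ∧
      ∀ D : ℕ, 0 < D → (D : ℝ) ≤ Real.log X ^ A → ((pr3 z).factorization p).gcd D ≤ 2 with hWf
  have hcov : W ⊆ Wa ∪ (Wb ∪ (Wc ∪ (Wd ∪ (We ∪ Wf)))) := by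
    intro z hz
    obtain ⟨h1, h2⟩ := hW z hz
    by_cases ha : (rd (pr3 z) : ℝ) ≤ (X : ℝ) ^ (1 / 2 : ℝ)
    · exact mem_union_left _ (mem_filter.2 ⟨hz, ha⟩)
    apply mem_union_right
    by_cases hb : Real.log (z.1 + z.2 : ℕ) < 144000
    · exact mem_union_left _ (mem_filter.2 ⟨hz, hb⟩)
    apply mem_union_right
    by_cases hc' : (X : ℝ) ^ (1 / 20 : ℝ) < ∏ p ∈ bad (1 / 12) 0 z, (p : ℝ)
    · exact mem_union_left _ (mem_filter.2 ⟨hz, not_lt.1 hb, hc'⟩)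
    apply mem_union_right
    by_cases hd : c * Real.log X < ((pr3 z).primeFactors.card : ℝ) * Real.log (Real.log X)
    · exact mem_union_left _ (mem_filter.2 ⟨hz, hd⟩)
    apply mem_union_right
    obtain ⟨p, hp, hpX⟩ := large_prime h1 hX1 (not_le.1 ha) (by linarith [not_lt.1 hb]) (not_lt.1 hc')
    by_cases he : ∃ k : ℕ, 3 ≤ k ∧ (k : ℝ) ≤ Real.log X ^ A ∧ k ∣ (pr3 z).factorization p
    · exact mem_union_left _ (mem_filter.2 ⟨hz, not_lt.1 hd, p, hp, hpX, he⟩)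
    apply mem_union_right
    refine mem_filter.2 ⟨hz, not_lt.1 hd, p, hp, hpX, fun D hD0 hD => ?_⟩
    by_contra hg
    apply he
    refine ⟨((pr3 z).factorization p).gcd D, by omega, ?_, Nat.gcd_dvd_left _ _⟩
    refine le_trans ?_ hD
    exact_mod_cast Nat.le_of_dvd hD0 (Nat.gcd_dvd_right _ _)
  have mono : ∀ s : ℝ, s ≤ 1 - 2 * δ → (X : ℝ) ^ s ≤ (X : ℝ) ^ (1 - 2 * δ) := fun s hs =>
    Real.rpow_le_rpow_of_exponent_le hX1 hs
  -- small radicals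
  have ba : (Wa.card : ℝ) ≤ (X : ℝ) ^ (1 - 2 * δ) := by
    have h1 := hX₄ X k4 Wa fun z hz => hW z (mem_filter.1 hz).1
    have h2 : ((Wa.image fun z => rd (pr3 z)).card : ℝ) ≤ (X : ℝ) ^ (1 / 2 : ℝ) := by
      have h3 : (Wa.image fun z => rd (pr3 z)) ⊆ Icc 1 ⌊(X : ℝ) ^ (1 / 2 : ℝ)⌋₊ := by
        intro R hR
        rw [mem_image] at hR
        obtain ⟨z, hz, rfl⟩ := hR
        rw [hWa, mem_filter] at hz
        exact mem_Icc.2 ⟨rd_pos _, Nat.le_floor hz.2⟩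
      have h4 := card_le_card h3
      rw [Nat.card_Icc, Nat.add_sub_cancel] at h4
      have h5 : ((⌊(X : ℝ) ^ (1 / 2 : ℝ)⌋₊ : ℕ) : ℝ) ≤ (X : ℝ) ^ (1 / 2 : ℝ) := Nat.floor_le (by positivity)
      exact le_trans (by exact_mod_cast h4) h5
    calc (Wa.card : ℝ) ≤ (X : ℝ) ^ (1 / 2 : ℝ) * (X : ℝ) ^ (2 * δ) :=
          h1.trans (mul_le_mul_of_nonneg_right h2 (by positivity))
      _ = (X : ℝ) ^ (1 / 2 + 2 * δ) := by rw [← Real.rpow_add hX0]
      _ ≤ (X : ℝ) ^ (1 - 2 * δ) := mono _ (by linarith)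
  -- small heights
  have bb : (Wb.card : ℝ) ≤ (X : ℝ) ^ (1 - 2 * δ) := by
    have h1 : Wb ⊆ range M ×ˢ range M := by
      intro z hz
      rw [hWb, mem_filter] at hz
      obtain ⟨hz, h2⟩ := hz
      obtain ⟨h3, -⟩ := hW z hz
      have h4 := h3.1
      have h5 := h3.2.1
      have h6 : ((z.1 + z.2 : ℕ) : ℝ) < Real.exp 144000 := by
        have h7 : (0 : ℝ) < ((z.1 + z.2 : ℕ) : ℝ) := by
          have : 0 < z.1 + z.2 := by omega
          exact_mod_cast this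
        exact (Real.log_lt_iff_lt_exp h7).1 h2
      have h8 : z.1 + z.2 < M := by
        have : ((z.1 + z.2 : ℕ) : ℝ) < M := lt_of_lt_of_le h6 (Nat.le_ceil _)
        exact_mod_cast this
      rw [mem_product, mem_range, mem_range]
      omega
    have h2 := card_le_card h1
    rw [card_product, card_range] at h2
    calc (Wb.card : ℝ) ≤ ((M * M : ℕ) : ℝ) := by exact_mod_cast h2
      _ ≤ (X : ℝ) ^ (1 / 2 : ℝ) := g2
      _ ≤ (X : ℝ) ^ (1 - 2 * δ) := mono _ (by linarith)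
  -- many primes of small contribution
  have bc : (Wc.card : ℝ) ≤ (X : ℝ) ^ (1 - 2 * δ) := by
    refine (hX₅ X k5 Wc fun z hz => ?_).trans (mono _ (by linarith))
    rw [hWc, mem_filter] at hz
    obtain ⟨h1, h2⟩ := hW z hz.1
    exact ⟨h1, h2, hz.2.1, hz.2.2⟩
  -- many primes
  have bd : (Wd.card : ℝ) ≤ (X : ℝ) ^ (1 - 2 * δ) := by
    have h1 := hX₄ X k4 Wd fun z hz => hW z (mem_filter.1 hz).1
    have h2 : ((Wd.image fun z => rd (pr3 z)).card : ℝ) ≤ (X : ℝ) ^ (1 - c / 8) := by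
      apply hX₃ X k3
      intro R hR
      rw [mem_image] at hR
      obtain ⟨z, hz, rfl⟩ := hR
      rw [hWd, mem_filter] at hz
      refine ⟨rd_pos _, (hW z hz.1).2, rd_squarefree _, ?_⟩
      rw [rd_primeFactors]
      exact hz.2
    calc (Wd.card : ℝ) ≤ (X : ℝ) ^ (1 - c / 8) * (X : ℝ) ^ (2 * δ) :=
          h1.trans (mul_le_mul_of_nonneg_right h2 (by positivity))
      _ = (X : ℝ) ^ (1 - c / 8 + 2 * δ) := by rw [← Real.rpow_add hX0]
      _ ≤ (X : ℝ) ^ (1 - 2 * δ) := mono _ (by linarith)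
  -- twisted families
  have be : (We.card : ℝ) ≤ (X : ℝ) ^ (1 - 2 * δ) := by
    refine (hX₂ X k2 We fun z hz => ?_).trans (mono _ (by linarith))
    rw [hWe, mem_filter] at hz
    obtain ⟨h1, h2⟩ := hW z hz.1
    refine ⟨h1, h2, hz.2.1.trans ?_, hz.2.2⟩
    exact mul_le_mul_of_nonneg_right (min_le_right _ _) hlX
  -- the rest
  have bf : (Wf.card : ℝ) ≤ (X : ℝ) ^ (1 - 2 * δ) := by
    have h1 := hX₄ X k4 Wf fun z hz => hW z (mem_filter.1 hz).1
    set V := ⌊(X : ℝ) ^ (1 - 1 / 80 : ℝ)⌋₊ with hV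
    have h2 : ((Wf.image fun z => rd (pr3 z)).card : ℝ) ≤ V * (X : ℝ) ^ (1 / 160 : ℝ) := by
      apply hX₁ X k1
      intro R hR
      rw [mem_image] at hR
      obtain ⟨z, hz, rfl⟩ := hR
      rw [hWf, mem_filter] at hz
      obtain ⟨hz, hom, p, hp, hpX, hgcd⟩ := hz
      obtain ⟨h3, h4⟩ := hW z hz
      have hpp := Nat.prime_of_mem_primeFactors hp
      have hSp : ∀ q ∈ (pr3 z).primeFactors.erase p, q.Prime := fun q hq =>
        Nat.prime_of_mem_primeFactors (mem_of_mem_erase hq)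
      have hmS : (∏ q ∈ (pr3 z).primeFactors.erase p, q).primeFactors = (pr3 z).primeFactors.erase p :=
        Nat.primeFactors_prod hSp
      have hR : rd (pr3 z) = (∏ q ∈ (pr3 z).primeFactors.erase p, q) * p := by
        unfold rd
        rw [prod_erase_mul _ _ hp]
      have hm1 : 1 ≤ ∏ q ∈ (pr3 z).primeFactors.erase p, q := Finset.prod_pos fun q hq => (hSp q hq).pos
      refine ⟨h4, ∏ q ∈ (pr3 z).primeFactors.erase p, q, p, hR, hpp, hm1, ?_, ?_, ?_, tri z, ?_, ?_⟩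
      · rw [hV, Nat.le_floor_iff (by positivity), Real.rpow_sub hX0, Real.rpow_one, le_div_iff₀ (by positivity)]
        have h5 : ((∏ q ∈ (pr3 z).primeFactors.erase p, q : ℕ) : ℝ) * p ≤ X := by
          rw [hR] at h4
          exact_mod_cast h4
        exact (mul_le_mul_of_nonneg_left hpX (Nat.cast_nonneg _)).trans h5
      · rw [hmS]
        exact notMem_erase p _
      · rw [hmS]
        have h5 : (((pr3 z).primeFactors.erase p).card : ℝ) ≤ (pr3 z).primeFactors.card := by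
          exact_mod_cast card_le_card (erase_subset _ _)
        refine (mul_le_mul_of_nonneg_right h5 hll).trans (hom.trans ?_)
        exact mul_le_mul_of_nonneg_right (min_le_left _ _) hlX
      · rw [hmS]
        exact tri_val h3 hp
      · intro D hD0 hD
        rw [tri_prod]
        exact hgcd D hD0 hD
    have hVX : (V : ℝ) ≤ (X : ℝ) ^ (1 - 1 / 80 : ℝ) := Nat.floor_le (by positivity)
    calc (Wf.card : ℝ) ≤ ((X : ℝ) ^ (1 - 1 / 80 : ℝ) * (X : ℝ) ^ (1 / 160 : ℝ)) * (X : ℝ) ^ (2 * δ) :=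
          h1.trans (mul_le_mul_of_nonneg_right (h2.trans (mul_le_mul_of_nonneg_right hVX (by positivity)))
            (by positivity))
      _ = (X : ℝ) ^ (1 - 1 / 80 + 1 / 160 + 2 * δ) := by rw [← Real.rpow_add hX0, ← Real.rpow_add hX0]
      _ ≤ (X : ℝ) ^ (1 - 2 * δ) := mono _ (by linarith)
  have hcard : (W.card : ℝ) ≤ Wa.card + (Wb.card + (Wc.card + (Wd.card + (We.card + Wf.card)))) := by
    exact_mod_cast (card_le_card hcov).trans ((card_union_le _ _).trans (Nat.add_le_add_left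
      ((card_union_le _ _).trans (Nat.add_le_add_left ((card_union_le _ _).trans (Nat.add_le_add_left
        ((card_union_le _ _).trans (Nat.add_le_add_left (card_union_le _ _) _)) _)) _)) _))
  calc (W.card : ℝ) ≤ 6 * (X : ℝ) ^ (1 - 2 * δ) := by linarith
    _ ≤ (X : ℝ) ^ δ * (X : ℝ) ^ (1 - 2 * δ) := mul_le_mul_of_nonneg_right g1 (by positivity)
    _ = (X : ℝ) ^ (1 - δ) := by
        rw [← Real.rpow_add hX0]
        congr 1
        ring

/-- **All triples with radical at most `X`, of any height.** -/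
theorem triples_total : ∃ δ : ℝ, 0 < δ ∧ ∃ X₀ : ℕ, ∀ X : ℕ, X₀ ≤ X →
    {x : Fin 3 → ℤ | Adm x ∧ radZ (∏ i, x i) ≤ X}.Finite ∧
    (({x : Fin 3 → ℤ | Adm x ∧ radZ (∏ i, x i) ≤ X}.ncard : ℕ) : ℝ) ≤ (X : ℝ) ^ (1 - δ) := by
  classical
  obtain ⟨δ, hδ, X₁, hX₁⟩ := pairs_total
  have e1 : ∀ᶠ x : ℝ in Filter.atTop, (36 : ℝ) ≤ x ^ (δ / 2) :=
    (tendsto_rpow_atTop (by positivity)).eventually_ge_atTop _
  obtain ⟨X₂, hX₂⟩ := Filter.eventually_atTop.1 (tendsto_natCast_atTop_atTop.eventually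
    (e1.and (Filter.eventually_ge_atTop (3 : ℝ))))
  refine ⟨δ / 2, by positivity, max X₁ X₂, fun X hX => ?_⟩
  have g0 : X₁ ≤ X := (le_max_left _ _).trans hX
  obtain ⟨g1, g2⟩ := hX₂ X ((le_max_right _ _).trans hX)
  have hX0 : (0 : ℝ) < X := by linarith
  have hfin := adm_finite X
  refine ⟨hfin, ?_⟩
  rw [Set.ncard_eq_toFinset_card _ hfin]
  set Z := hfin.toFinset with hZ
  have hZm : ∀ x ∈ Z, Adm x ∧ radZ (∏ i, x i) ≤ X := by
    intro x hx
    rw [hZ, Set.Finite.mem_toFinset] at hx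
    exact hx
  have h1 : ∀ x : Fin 3 → ℤ, ∃ z : ℕ × ℕ, x ∈ Z → (Prm z ∧ radZ (∏ i, x i) = rd (pr3 z) ∧
      ∀ j, (x j).natAbs = z.1 ∨ (x j).natAbs = z.2 ∨ (x j).natAbs = z.1 + z.2) := by
    intro x
    by_cases hx : x ∈ Z
    · obtain ⟨z, hz⟩ := adm_vals (hZm x hx).1
      exact ⟨z, fun _ => hz⟩
    · exact ⟨(0, 0), fun h => absurd h hx⟩
  choose ζ hζ using h1
  have h2 : (((Z.image ζ).card : ℕ) : ℝ) ≤ (X : ℝ) ^ (1 - δ) := by
    apply hX₁ X g0
    intro z hz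
    rw [mem_image] at hz
    obtain ⟨x, hx, rfl⟩ := hz
    obtain ⟨e1, e2, -⟩ := hζ x hx
    exact ⟨e1, e2 ▸ (hZm x hx).2⟩
  have h3 : Z.card ≤ 36 * (Z.image ζ).card := by
    apply card_le_mul_card_image
    intro z _
    apply adm_fiber z
    intro x hx
    rw [mem_filter] at hx
    obtain ⟨hx, rfl⟩ := hx
    exact ⟨(hZm x hx).1.2.1, (hζ x hx).2.2⟩
  calc (Z.card : ℝ) ≤ 36 * ((Z.image ζ).card : ℝ) := by exact_mod_cast h3
    _ ≤ (X : ℝ) ^ (δ / 2) * (X : ℝ) ^ (1 - δ) := mul_le_mul g1 h2 (Nat.cast_nonneg _) (by positivity)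
    _ = (X : ℝ) ^ (1 - δ / 2) := by
        rw [← Real.rpow_add hX0]
        congr 1
        ring

end Pool.MP_a95293_nt.AH
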