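import Pool.Agent.Lib_MP_a95293_ah.Re
import Pool.Agent.Lib_MP_a95293_tp.Gap

/-!
# The upper bounds for the Padé form
-/

set_option autoImplicit false

namespace Pool.MP_a95293_nt.AH

open Finset Pool.MP_a95293_nt.RC Pool.MP_a95293_nt.TP

/-- The upper bound with closeness. -/
theorem lam_up2 {k : ℕ} (hk : 2 ≤ k) {α β x y x' y' : ℤ} {D D' : ℕ} (h : Eq3 k α β x y D)
    (h' : Eq3 k α β x' y' D') (hα : 0 < α) (hβ : 0 < β) (hD : 0 < D) (hD' : 0 < D') {a b : ℝ}
    (ha0 : 0 ≤ a) (hb0 : 0 ≤ b)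
    (ha : Real.log (D : ℝ) + a ≤ Real.log ((β * y ^ k : ℤ) : ℝ))
    (hb : Real.log (D' : ℝ) + b ≤ Real.log ((β * y' ^ k : ℤ) : ℝ)) (n : ℕ)
    (hn : Lam k n (x * y') (x' * y) (α * x ^ k) (β * y ^ k) ≠ 0) :
    Real.log |((Lam k n (x * y') (x' * y) (α * x ^ k) (β * y ^ k) : ℤ) : ℝ)| ≤
      Real.log ((x' * y : ℤ) : ℝ) + n * Real.log ((α * x ^ k : ℤ) : ℝ) + Real.log (Cn k n) +
        (k * n + 3) * Real.log 2 - min ((2 * n + 1) * a) b := by
  have hk0 : k ≠ 0 := by omega
  have hx0 : (0 : ℝ) < x := by exact_mod_cast h.hx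
  have hy0 : (0 : ℝ) < y := by exact_mod_cast h.hy
  have hx0' : (0 : ℝ) < x' := by exact_mod_cast h'.hx
  have hy0' : (0 : ℝ) < y' := by exact_mod_cast h'.hy
  have hα0 : (0 : ℝ) < α := by exact_mod_cast hα
  have hβ0 : (0 : ℝ) < β := by exact_mod_cast hβ
  have hDr : (0 : ℝ) < D := by exact_mod_cast hD
  have hDr' : (0 : ℝ) < D' := by exact_mod_cast hD'
  set u : ℝ := (α : ℝ) * (x : ℝ) ^ k with hu
  set v : ℝ := (β : ℝ) * (y : ℝ) ^ k with hv
  set u' : ℝ := (α : ℝ) * (x' : ℝ) ^ k with hu'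
  set v' : ℝ := (β : ℝ) * (y' : ℝ) ^ k with hv'
  have hu0 : 0 < u := by positivity
  have hv0 : 0 < v := by positivity
  have hu0' : 0 < u' := by positivity
  have hv0' : 0 < v' := by positivity
  have huv : u - v = D := by
    have := h.val
    rw [hu, hv]
    exact_mod_cast this
  have huv' : u' - v' = D' := by
    have := h'.val
    rw [hu', hv']
    exact_mod_cast this
  have cu : ((α * x ^ k : ℤ) : ℝ) = u := by
    rw [hu]
    push_cast
    rfl
  have cv : ((β * y ^ k : ℤ) : ℝ) = v := by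
    rw [hv]
    push_cast
    rfl
  have cv' : ((β * y' ^ k : ℤ) : ℝ) = v' := by
    rw [hv']
    push_cast
    rfl
  rw [cv] at ha
  rw [cv'] at hb
  rw [cu]
  set r : ℝ := Real.exp (-a) with hr
  set q : ℝ := Real.exp (-b) with hq
  have hr0 : 0 < r := Real.exp_pos _
  have hq0 : 0 < q := Real.exp_pos _
  have hr1 : r ≤ 1 := by
    rw [hr, Real.exp_le_one_iff]
    linarith
  have hDa : (D : ℝ) ≤ r * v := by
    rw [← Real.log_le_log_iff hDr (by positivity), Real.log_mul hr0.ne' hv0.ne', hr, Real.log_exp]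
    linarith
  have hDb : (D' : ℝ) ≤ q * v' := by
    rw [← Real.log_le_log_iff hDr' (by positivity), Real.log_mul hq0.ne' hv0'.ne', hq, Real.log_exp]
    linarith
  -- roots
  obtain ⟨U, hU0, hUk⟩ : ∃ U : ℝ, 0 < U ∧ U ^ k = u :=
    ⟨u ^ ((k : ℝ)⁻¹), by positivity, Real.rpow_inv_natCast_pow hu0.le hk0⟩
  obtain ⟨V, hV0, hVk⟩ : ∃ V : ℝ, 0 < V ∧ V ^ k = v :=
    ⟨v ^ ((k : ℝ)⁻¹), by positivity, Real.rpow_inv_natCast_pow hv0.le hk0⟩
  have hVU : V ≤ U := by
    apply le_of_pow_le_pow_left₀ hk0 hU0.le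
    rw [hUk, hVk]
    linarith
  have hUV : U ≤ (1 + r) * V := by
    apply le_of_pow_le_pow_left₀ hk0 (by positivity)
    rw [mul_pow, hUk, hVk]
    have h1 : 1 + r ≤ (1 + r) ^ k := le_self_pow₀ (by linarith) hk0
    have h2 : u ≤ (1 + r) * v := by nlinarith
    exact h2.trans (mul_le_mul_of_nonneg_right h1 hv0.le)
  have hE := pad_real k n hk hV0 hVU (r := r) (by linarith) hr0.le hr1
  rw [hUk, hVk] at hE
  -- the two products
  set s : ℝ := x * y' with hs
  set t : ℝ := x' * y with ht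
  have hs0 : 0 < s := mul_pos hx0 hy0'
  have ht0 : 0 < t := mul_pos hx0' hy0
  have hsV : (s * V) ^ k * (α * β) = u * v' * v := by
    rw [mul_pow, hVk, hs, mul_pow, hu, hv']
    ring
  have htU : (t * U) ^ k * (α * β) = u' * v * u := by
    rw [mul_pow, hUk, ht, mul_pow, hu', hv]
    ring
  have hαβ : 0 < (α : ℝ) * β := mul_pos hα0 hβ0
  have hsU1 : s * V ≤ t * U := by
    apply le_of_pow_le_pow_left₀ hk0 (by positivity)
    refine le_of_mul_le_mul_right ?_ hαβ
    rw [hsV, htU]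
    have h1 : u * v' * v = (u * v) * v' := by ring
    have h2 : u' * v * u = (u * v) * u' := by ring
    rw [h1, h2]
    exact mul_le_mul_of_nonneg_left (by linarith) (by positivity)
  have hρ : t * U * (v' / u') ≤ s * V := by
    apply le_of_pow_le_pow_left₀ hk0 (by positivity)
    refine le_of_mul_le_mul_right ?_ hαβ
    have h1 : (v' / u') ^ k ≤ v' / u' := by
      apply pow_le_of_le_one (by positivity) _ hk0
      rw [div_le_one hu0']
      linarith
    calc (t * U * (v' / u')) ^ k * (α * β) = ((t * U) ^ k * (α * β)) * (v' / u') ^ k := by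
          rw [mul_pow]
          ring
      _ ≤ ((t * U) ^ k * (α * β)) * (v' / u') := mul_le_mul_of_nonneg_left h1 (by positivity)
      _ = (s * V) ^ k * (α * β) := by
          rw [hsV, htU]
          field_simp
  have hdiff : t * U - s * V ≤ t * U * q := by
    have h1 : t * U - s * V ≤ t * U * (1 - v' / u') := by
      have : t * U * (1 - v' / u') = t * U - t * U * (v' / u') := by ring
      rw [this]
      linarith
    refine h1.trans (mul_le_mul_of_nonneg_left ?_ (by positivity))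
    rw [sub_le_iff_le_add, ← sub_le_iff_le_add', le_div_iff₀ hu0']
    have h2 : v' ≤ u' := by linarith
    have h3 : q * v' ≤ q * u' := mul_le_mul_of_nonneg_left h2 hq0.le
    nlinarith
  -- the forms
  set A : ℝ := ∑ i ∈ range (n + 1), (cf k n i : ℝ) * u ^ i * v ^ (n - i) with hA
  set B : ℝ := ∑ i ∈ range (n + 1), (cf k n i : ℝ) * v ^ i * u ^ (n - i) with hB
  have hLam : ((Lam k n (x * y') (x' * y) (α * x ^ k) (β * y ^ k) : ℤ) : ℝ) = t * A - s * B := by
    unfold Lam fB fA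
    rw [ht, hs, hA, hB, hu, hv]
    push_cast
    rfl
  have hCn := Cn_pos k n hk
  have hB0 : 0 ≤ B := sum_nonneg fun i _ => by positivity
  have hBle : B ≤ Cn k n * u ^ n := by
    rw [hB, Cn, sum_mul]
    refine sum_le_sum fun i hi => ?_
    rw [mem_range] at hi
    rw [mul_assoc]
    apply mul_le_mul_of_nonneg_left _ (Nat.cast_nonneg _)
    calc v ^ i * u ^ (n - i) ≤ u ^ i * u ^ (n - i) :=
          mul_le_mul_of_nonneg_right (pow_le_pow_left₀ hv0.le (by linarith) i) (by positivity)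
      _ = u ^ n := by
          rw [← pow_add]
          congr 1
          omega
  set m : ℝ := min ((2 * n + 1) * a) b with hm
  set w : ℝ := Real.exp (-m) with hw
  have hw0 : 0 < w := Real.exp_pos _
  have hrw : r ^ (2 * n + 1) ≤ w := by
    rw [hr, ← Real.exp_nat_mul, hw]
    apply Real.exp_le_exp.2
    have h1 : m ≤ (2 * n + 1) * a := min_le_left _ _
    push_cast
    nlinarith
  have hqw : q ≤ w := by
    rw [hq, hw]
    apply Real.exp_le_exp.2
    have h1 : m ≤ b := min_le_right _ _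
    linarith
  have hmain : |t * A - s * B| ≤ t * Cn k n * u ^ n * 2 ^ (k * n + 3) * w := by
    have h1 : V * (t * A - s * B) = t * (V * A - U * B) + (t * U - s * V) * B := by ring
    have h2 : V * |t * A - s * B| ≤ t * (2 ^ (k * n + 2) * Cn k n * r ^ (2 * n + 1) * (V * v ^ n)) +
        t * U * q * (Cn k n * u ^ n) := by
      rw [← abs_of_pos hV0, ← abs_mul, abs_of_pos hV0, h1]
      refine (abs_add_le _ _).trans ?_
      rw [abs_mul t, abs_mul (t * U - s * V), abs_of_pos ht0, abs_of_nonneg (by linarith : 0 ≤ t * U - s * V),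
        abs_of_nonneg hB0]
      exact add_le_add (mul_le_mul_of_nonneg_left hE ht0.le)
        (mul_le_mul hdiff hBle hB0 (by positivity))
    have h3 : t * (2 ^ (k * n + 2) * Cn k n * r ^ (2 * n + 1) * (V * v ^ n)) ≤
        V * (t * Cn k n * u ^ n * w * 2 ^ (k * n + 2)) := by
      have h4 : v ^ n ≤ u ^ n := pow_le_pow_left₀ hv0.le (by linarith) n
      calc t * (2 ^ (k * n + 2) * Cn k n * r ^ (2 * n + 1) * (V * v ^ n)) =
            V * (t * Cn k n * 2 ^ (k * n + 2)) * (v ^ n * r ^ (2 * n + 1)) := by ring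
        _ ≤ V * (t * Cn k n * 2 ^ (k * n + 2)) * (u ^ n * w) := by
            apply mul_le_mul_of_nonneg_left _ (by positivity)
            exact mul_le_mul h4 hrw (by positivity) (by positivity)
        _ = _ := by ring
    have h5 : t * U * q * (Cn k n * u ^ n) ≤ V * (t * Cn k n * u ^ n * w * 2) := by
      have h6 : U ≤ 2 * V := hUV.trans (mul_le_mul_of_nonneg_right (by linarith) hV0.le)
      calc t * U * q * (Cn k n * u ^ n) = (t * Cn k n * u ^ n) * (U * q) := by ring
        _ ≤ (t * Cn k n * u ^ n) * (2 * V * w) := by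
            apply mul_le_mul_of_nonneg_left _ (by positivity)
            exact mul_le_mul h6 hqw hq0.le (by positivity)
        _ = _ := by ring
    have h7 : V * |t * A - s * B| ≤ V * (t * Cn k n * u ^ n * 2 ^ (k * n + 3) * w) := by
      refine h2.trans ((add_le_add h3 h5).trans ?_)
      rw [← mul_add]
      apply mul_le_mul_of_nonneg_left _ hV0.le
      have h8 : (2 : ℝ) ^ (k * n + 2) + 2 ≤ 2 ^ (k * n + 3) := by
        have h9 : (1 : ℝ) ≤ 2 ^ (k * n) := one_le_pow₀ (by norm_num)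
        rw [pow_add, pow_add]
        norm_num
        linarith
      calc t * Cn k n * u ^ n * w * 2 ^ (k * n + 2) + t * Cn k n * u ^ n * w * 2 =
            t * Cn k n * u ^ n * w * (2 ^ (k * n + 2) + 2) := by ring
        _ ≤ t * Cn k n * u ^ n * w * 2 ^ (k * n + 3) := mul_le_mul_of_nonneg_left h8 (by positivity)
        _ = _ := by ring
    exact le_of_mul_le_mul_left h7 hV0
  rw [hLam]
  have hne : t * A - s * B ≠ 0 := by
    rw [← hLam]
    exact_mod_cast hn
  have ct : ((x' * y : ℤ) : ℝ) = t := by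
    rw [ht]
    push_cast
    rfl
  rw [ct]
  refine (Real.log_le_log (abs_pos.2 hne) hmain).trans ?_
  rw [Real.log_mul (by positivity) hw0.ne', Real.log_mul (by positivity) (by positivity),
    Real.log_mul (by positivity) (by positivity), Real.log_mul ht0.ne' hCn.ne', Real.log_pow,
    Real.log_pow, hw, Real.log_exp]
  push_cast
  linarith

/-- The upper bound without closeness. -/
theorem lam_up1 {k : ℕ} (hk : 2 ≤ k) {α β x y x' y' : ℤ} {D D' : ℕ} (h : Eq3 k α β x y D)
    (h' : Eq3 k α β x' y' D') (hα : α ≠ 0) (hβ : β ≠ 0) {H H' : ℝ} (hH : 0 < H)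
    (hu : |((α * x ^ k : ℤ) : ℝ)| ≤ H)
    (hv : |((β * y ^ k : ℤ) : ℝ)| ≤ H) (hu' : |((α * x' ^ k : ℤ) : ℝ)| ≤ H')
    (hv' : |((β * y' ^ k : ℤ) : ℝ)| ≤ H') (n : ℕ)
    (hn : Lam k n (x * y') (x' * y) (α * x ^ k) (β * y ^ k) ≠ 0) :
    Real.log |((Lam k n (x * y') (x' * y) (α * x ^ k) (β * y ^ k) : ℤ) : ℝ)| ≤
      Real.log 2 + (Real.log H + Real.log H') / k + n * Real.log H + Real.log (Cn k n) := by
  have hk1 : 1 ≤ k := by omega
  obtain ⟨g1, g2⟩ := gap_up h h' hk1 hα hβ hu hv hu' hv'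
  have hs0 : (0 : ℝ) < ((x * y' : ℤ) : ℝ) := by exact_mod_cast mul_pos h.hx h'.hy
  have ht0 : (0 : ℝ) < ((x' * y : ℤ) : ℝ) := by exact_mod_cast mul_pos h'.hx h.hy
  set S : ℝ := max ((x * y' : ℤ) : ℝ) ((x' * y : ℤ) : ℝ) with hS
  have hS0 : 0 < S := lt_of_lt_of_le hs0 (le_max_left _ _)
  have hlS : Real.log S ≤ (Real.log H + Real.log H') / k := by
    rcases max_cases ((x * y' : ℤ) : ℝ) ((x' * y : ℤ) : ℝ) with ⟨h1, _⟩ | ⟨h1, _⟩
    · rw [hS, h1]
      exact g2
    · rw [hS, h1]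
      exact g1
  have hCn := Cn_pos k n hk
  have hf : ∀ a b : ℤ, |(a : ℝ)| ≤ H → |(b : ℝ)| ≤ H → |((fA k n a b : ℤ) : ℝ)| ≤ Cn k n * H ^ n := by
    intro a b ha hb
    unfold fA
    push_cast
    refine (abs_sum_le_sum_abs _ _).trans ?_
    rw [Cn, sum_mul]
    refine sum_le_sum fun i hi => ?_
    rw [mem_range] at hi
    rw [mul_assoc, abs_mul, abs_mul, abs_pow, abs_pow, abs_of_nonneg (Nat.cast_nonneg (cf k n i))]
    apply mul_le_mul_of_nonneg_left _ (Nat.cast_nonneg _)
    calc |(a : ℝ)| ^ i * |(b : ℝ)| ^ (n - i) ≤ H ^ i * H ^ (n - i) :=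
          mul_le_mul (pow_le_pow_left₀ (abs_nonneg _) ha i) (pow_le_pow_left₀ (abs_nonneg _) hb _)
            (by positivity) (by positivity)
      _ = H ^ n := by
          rw [← pow_add]
          congr 1
          omega
  have hmain : |((Lam k n (x * y') (x' * y) (α * x ^ k) (β * y ^ k) : ℤ) : ℝ)| ≤
      2 * S * (H ^ n * Cn k n) := by
    unfold Lam fB
    rw [Int.cast_sub, Int.cast_mul (x' * y), Int.cast_mul (x * y')]
    refine (abs_sub _ _).trans ?_
    rw [abs_mul ((x' * y : ℤ) : ℝ), abs_mul ((x * y' : ℤ) : ℝ), abs_of_pos ht0, abs_of_pos hs0]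
    have h1 := mul_le_mul (le_max_right ((x * y' : ℤ) : ℝ) ((x' * y : ℤ) : ℝ)) (hf _ _ hu hv) (abs_nonneg _) hS0.le
    have h2 := mul_le_mul (le_max_left ((x * y' : ℤ) : ℝ) ((x' * y : ℤ) : ℝ)) (hf _ _ hv hu) (abs_nonneg _) hS0.le
    rw [← hS] at h1 h2
    linarith
  have hLm : (0 : ℝ) < |((Lam k n (x * y') (x' * y) (α * x ^ k) (β * y ^ k) : ℤ) : ℝ)| := by
    rw [abs_pos]
    exact_mod_cast hn
  refine (Real.log_le_log hLm hmain).trans ?_
  rw [Real.log_mul (by positivity) (by positivity), Real.log_mul (by norm_num) hS0.ne',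
    Real.log_mul (by positivity) hCn.ne', Real.log_pow]
  linarith

end Pool.MP_a95293_nt.AH
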